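import Mathlib

set_option autoImplicit false

open Real MeasureTheory intervalIntegral Set

namespace Pool.Agent.Helper115.FC

theorem const_of_fourier {L : ℝ} (hL : 0 < L) {g : ℝ → ℝ} (hg : Continuous g)
    (hper : ∀ x, g (x + L) = g x)
    (h : ∀ k : ℤ, k ≠ 0 → ∫ x in (0 : ℝ)..L,
      (g x : ℂ) * Complex.exp (-(2 * π * k / L * x : ℝ) * Complex.I) = 0) :
    ∀ x, g x = (1 / L) * ∫ r in (0 : ℝ)..L, g r := by
  have : Fact (0 < L) := ⟨hL⟩
  have hFper : Function.Periodic (fun x => (g x : ℂ)) L := by
    intro x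
    simp only [hper]
  have hFc : Continuous (fun x => (g x : ℂ)) := Complex.continuous_ofReal.comp hg
  let f : C(AddCircle L, ℂ) := ⟨hFper.lift, continuous_coinduced_dom.mpr hFc⟩
  have hf : ∀ x : ℝ, f (x : AddCircle L) = (g x : ℂ) := fun x => rfl
  have hf0 : ∀ n : ℤ, n ≠ 0 → fourierCoeff f n = 0 := by
    intro n hn
    rw [fourierCoeff_eq_intervalIntegral _ n 0]
    have h2 : (fun x : ℝ => (fourier (-n) (x : AddCircle L) : ℂ) • f (x : AddCircle L))
        = fun x => (g x : ℂ) * Complex.exp (-(2 * π * n / L * x : ℝ) * Complex.I) := by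
      funext x
      rw [fourier_coe_apply, hf, smul_eq_mul, mul_comm]
      congr 2
      push_cast
      ring
    rw [zero_add, h2, h n hn, smul_zero]
  have hc0 : fourierCoeff f 0 = (((1 / L) * ∫ r in (0 : ℝ)..L, g r : ℝ) : ℂ) := by
    rw [fourierCoeff_eq_intervalIntegral _ 0 0]
    have h2 : (fun x : ℝ => (fourier (-0) (x : AddCircle L) : ℂ) • f (x : AddCircle L))
        = fun x => (g x : ℂ) := by
      funext x
      rw [fourier_coe_apply, hf, smul_eq_mul, mul_comm]
      simp
    rw [zero_add, h2, intervalIntegral.integral_ofReal, Complex.real_smul]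
    push_cast
    ring
  have hsum : Summable (fourierCoeff f) := by
    apply summable_of_ne_finset_zero (s := {0})
    intro n hn
    exact hf0 n (by simpa using hn)
  intro x
  have h1 := has_pointwise_sum_fourier_series_of_summable hsum (x : AddCircle L)
  have h2 : HasSum (fun i => fourierCoeff f i • (fourier i (x : AddCircle L) : ℂ))
      (fourierCoeff f 0 • (fourier 0 (x : AddCircle L) : ℂ)) :=
    hasSum_single 0 (fun n hn => by rw [hf0 n hn, zero_smul])
  have h3 := h1.unique h2
  rw [hf, hc0] at h3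
  simp only [fourier_zero, smul_eq_mul, mul_one] at h3
  exact_mod_cast h3


end Pool.Agent.Helper115.FC
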