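import Mathlib

set_option autoImplicit false

open Real MeasureTheory intervalIntegral
open scoped ContDiff

namespace Pool.Agent.Helper115.FC

/-- A function `u` of the coordinates `(x, y)` of the plane is invariant under the lattice
`a ℤ × b ℤ`, that is, it is a function on the torus `ℝ² / (a ℤ × b ℤ)`. -/
def Periodic2 (a b : ℝ) (u : ℝ → ℝ → ℝ) : Prop :=
  ∀ x y, u (x + a) y = u x y ∧ u x (y + b) = u x y

/-- Partial derivatives: `pd 0 = ∂/∂x`, `pd 1 = ∂/∂y`. -/
noncomputable def pd (i : Fin 2) (u : ℝ → ℝ → ℝ) : ℝ → ℝ → ℝ :=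
  if i = 0 then fun x y => deriv (fun r => u r y) x else fun x y => deriv (fun r => u x r) y

/-- The components of a vector field in the coordinates `(x, y)`. -/
abbrev VField : Type := Fin 2 → ℝ → ℝ → ℝ

/-- A smooth Riemannian metric `∑ g i j dx^i dx^j` on the torus `ℝ² / (a ℤ × b ℤ)`. -/
structure TorusMetric (a b : ℝ) where
  g : Fin 2 → Fin 2 → ℝ → ℝ → ℝ
  smooth : ∀ i j, ContDiff ℝ ∞ (Function.uncurry (g i j))
  periodic : ∀ i j, Periodic2 a b (g i j)
  symm : ∀ i j, g i j = g j i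
  pos : ∀ x y, 0 < g 0 0 x y
  det_pos : ∀ x y, 0 < g 0 0 x y * g 1 1 x y - g 0 1 x y ^ 2

variable {a b : ℝ}

/-- The Riemannian volume density `√ det g`. -/
noncomputable def TorusMetric.density (G : TorusMetric a b) (x y : ℝ) : ℝ :=
  √ (G.g 0 0 x y * G.g 1 1 x y - G.g 0 1 x y ^ 2)

/-- `div u = 0` with respect to the Riemannian volume. -/
def DivFree (G : TorusMetric a b) (u : VField) : Prop :=
  ∀ x y, ∑ i, pd i (fun x y => G.density x y * u i x y) x y = 0

/-- The Levi-Civita connection, with the index lowered: `nabla G v w k = ⟨∇_v w, ∂_k⟩`. -/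
noncomputable def nabla (G : TorusMetric a b) (v w : VField) (k : Fin 2) (x y : ℝ) : ℝ :=
  ∑ i, ∑ j, (G.g k j x y * v i x y * pd i (w j) x y
    + 1 / 2 * (pd i (G.g j k) x y + pd j (G.g i k) x y - pd k (G.g i j) x y)
      * v i x y * w j x y)

/-- The Lie bracket `[v, w] = ∇_v w - ∇_w v` of vector fields. -/
noncomputable def bracket (v w : VField) (i : Fin 2) (x y : ℝ) : ℝ :=
  ∑ j, (v j x y * pd j (w i) x y - w j x y * pd j (v i) x y)

/-- Fourier coefficients of a function on the torus `ℝ² / (a ℤ × b ℤ)`. -/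
noncomputable def fourierCoef (a b : ℝ) (u : ℝ → ℝ → ℝ) (k l : ℤ) : ℂ :=
  ∫ x in (0 : ℝ)..a, ∫ y in (0 : ℝ)..b,
    (u x y : ℂ) * Complex.exp (-(2 * π * (k * x / a + l * y / b) : ℝ) * Complex.I)

/-- The Sobolev space `H^s` of the torus. -/
def InHs (a b s : ℝ) (u : ℝ → ℝ → ℝ) : Prop :=
  Summable fun k : ℤ × ℤ =>
    (1 + (k.1 : ℝ) ^ 2 + (k.2 : ℝ) ^ 2) ^ s * ‖fourierCoef a b u k.1 k.2‖ ^ 2

/-- The tangent space at the identity of the group of volume preserving `H^s` diffeomorphisms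
of the torus with metric `G`: divergence free vector fields of class `H^s`. For `s > 2` they are
of class `C¹` by the Sobolev embedding theorem. -/
structure IsTangent (G : TorusMetric a b) (s : ℝ) (u : VField) : Prop where
  c1 : ∀ i, ContDiff ℝ 1 (Function.uncurry (u i))
  periodic : ∀ i, Periodic2 a b (u i)
  hs : ∀ i, InHs a b s (u i)
  div : DivFree G u

/-- `-α` is the differential of a function on the torus, where `α = α 0 dx + α 1 dy`. -/
def IsNegGradient (a b : ℝ) (α : Fin 2 → ℝ → ℝ → ℝ) : Prop :=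
  ∃ p : ℝ → ℝ → ℝ, ContDiff ℝ 1 (Function.uncurry p) ∧ Periodic2 a b p ∧
    ∀ k x y, α k x y = -pd k p x y

/-- The time dependent field `v` is an `H^s` solution of the Euler equations
`∂_t v + ∇_v v = - grad p`, `div v = 0` on the torus with metric `G`, and `η` is its flow, so that
`η` is the `L²` geodesic of the group of volume preserving `H^s` diffeomorphisms which starts at
the identity with velocity `v 0`. -/
structure IsGeodesic (G : TorusMetric a b) (s : ℝ) (v : ℝ → VField)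
    (η : ℝ → ℝ × ℝ → ℝ × ℝ) : Prop where
  tangent : ∀ t, IsTangent G s (v t)
  c1 : ∀ i, ContDiff ℝ 1 (fun q : ℝ × ℝ × ℝ => v q.1 i q.2.1 q.2.2)
  euler : ∀ t, IsNegGradient a b fun k x y =>
    ∑ l, G.g k l x y * deriv (fun τ => v τ l x y) t + nabla G (v t) (v t) k x y
  init : ∀ q, η 0 q = q
  flow : ∀ t q, HasDerivAt (fun τ => η τ q)
    (v t 0 (η t q).1 (η t q).2, v t 1 (η t q).1 (η t q).2) t

/-- `J(t) = z(t) ∘ η(t)` is a Jacobi field along the geodesic with velocity `v`, of class `H^s`: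
`∂_t z + [v, z] = w` and `∂_t w + ∇_v w + ∇_w v = - grad q`, the linearised equations. -/
structure IsJacobi (G : TorusMetric a b) (s : ℝ) (v w z : ℝ → VField) : Prop where
  tangent_w : ∀ t, IsTangent G s (w t)
  tangent_z : ∀ t, IsTangent G s (z t)
  c1_w : ∀ i, ContDiff ℝ 1 (fun q : ℝ × ℝ × ℝ => w q.1 i q.2.1 q.2.2)
  c1_z : ∀ i, ContDiff ℝ 1 (fun q : ℝ × ℝ × ℝ => z q.1 i q.2.1 q.2.2)
  flow : ∀ t i x y, deriv (fun τ => z τ i x y) t + bracket (v t) (z t) i x y = w t i x y
  euler : ∀ t, IsNegGradient a b fun k x y =>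
    ∑ l, G.g k l x y * deriv (fun τ => w τ l x y) t
      + nabla G (v t) (w t) k x y + nabla G (w t) (v t) k x y

/-- The kernel of the derivative at `t₀ v₀` of the `L²` exponential map `exp_e`, on the group of
volume preserving `H^s` diffeomorphisms, where `v₀ = v 0`: the initial velocities `w₀` for which
the Jacobi field `J(t) = t * dexp_e(t v₀) w₀` with `J(0) = 0`, `J'(0) = w₀` vanishes at `t₀`. -/
def expKernel (G : TorusMetric a b) (s : ℝ) (v : ℝ → VField) (t₀ : ℝ) : Set VField :=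
  {w₀ | ∃ w z : ℝ → VField, IsJacobi G s v w z ∧ w 0 = w₀ ∧ z 0 = 0 ∧ z t₀ = 0}

/-- The geodesic has a conjugate point at time `t₀ > 0`. -/
def IsConjugate (G : TorusMetric a b) (s : ℝ) (v : ℝ → VField) (t₀ : ℝ) : Prop :=
  0 < t₀ ∧ ∃ w₀ ∈ expKernel G s v t₀, w₀ ≠ 0

/-- The order of the conjugate point at time `t₀`: the dimension of the kernel. -/
noncomputable def conjugateOrder (G : TorusMetric a b) (s : ℝ) (v : ℝ → VField) (t₀ : ℝ) : ℕ :=
  Module.finrank ℝ (Submodule.span ℝ (expKernel G s v t₀))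

end Pool.Agent.Helper115.FC
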