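import Mathlib

set_option autoImplicit false

open Real MeasureTheory intervalIntegral Set

namespace Pool.Agent.Helper115.FC

theorem hasDerivAt_param {G G' : ℝ → ℝ → ℂ} (a b : ℝ)
    (hG : ∀ r x, HasDerivAt (fun r => G r x) (G' r x) r)
    (hG0 : ∀ r, Continuous (G r))
    (hG' : Continuous (Function.uncurry G')) (r : ℝ) :
    HasDerivAt (fun r => ∫ x in a..b, G r x) (∫ x in a..b, G' r x) r := by
  have hK : IsCompact (Icc (r - 1) (r + 1) ×ˢ uIcc a b) := isCompact_Icc.prod isCompact_uIcc
  obtain ⟨C, hC⟩ := hK.exists_bound_of_continuousOn (f := Function.uncurry G') hG'.continuousOn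
  have hs : Ioo (r - 1) (r + 1) ∈ nhds r := Ioo_mem_nhds (by linarith) (by linarith)
  refine (intervalIntegral.hasDerivAt_integral_of_dominated_loc_of_deriv_le
    (μ := volume) (F := G) (F' := G') (x₀ := r) (s := Ioo (r - 1) (r + 1))
    (bound := fun _ => C) hs ?_ ?_ ?_ ?_ ?_ ?_).2
  · exact Filter.Eventually.of_forall fun x => (hG0 x).aestronglyMeasurable
  · exact (hG0 r).intervalIntegrable _ _
  · exact (hG'.comp (Continuous.prodMk_right r)).aestronglyMeasurable
  · refine Filter.Eventually.of_forall fun t ht x hx => ?_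
    exact hC (x, t) ⟨⟨hx.1.le, hx.2.le⟩, uIoc_subset_uIcc ht⟩
  · exact continuous_const.intervalIntegrable _ _
  · exact Filter.Eventually.of_forall fun t _ x _ => hG x t

theorem continuous_param {α : Type*} [TopologicalSpace α] {G : α → ℝ → ℂ} (a b : ℝ)
    (hG : Continuous (Function.uncurry G)) : Continuous fun r => ∫ x in a..b, G r x :=
  intervalIntegral.continuous_parametric_intervalIntegral_of_continuous' hG a b

end Pool.Agent.Helper115.FC
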