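import Pool.Agent.Helper115.FC.Defs
import Pool.Agent.Helper115.FC.Par

set_option autoImplicit false

open Real MeasureTheory intervalIntegral
open scoped ContDiff

namespace Pool.Agent.Helper115.FC

/-- The metric coefficient `m(y) = 3 + cos y`. -/
noncomputable def mm (y : ℝ) : ℝ := 3 + cos y
/-- The shear profile `f(y) = (2 - cos y)(3 + cos y)`. -/
noncomputable def ff (y : ℝ) : ℝ := (2 - cos y) * (3 + cos y)
/-- `m'`. -/
noncomputable def dm (y : ℝ) : ℝ := -sin y
/-- `f'`. -/
noncomputable def df (y : ℝ) : ℝ := sin y * (1 + 2 * cos y)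
/-- `(m f)'`. -/
noncomputable def p1 (y : ℝ) : ℝ := sin y * (3 + cos y) * (3 * cos y - 1)
/-- `(m f)''`. -/
noncomputable def p2 (y : ℝ) : ℝ :=
  cos y * (3 + cos y) * (3 * cos y - 1) - sin y ^ 2 * (3 * cos y - 1)
    - 3 * sin y ^ 2 * (3 + cos y)

lemma mm_pos (y : ℝ) : 0 < mm y := by unfold mm; linarith [neg_one_le_cos y]
lemma mm_le (y : ℝ) : mm y ≤ 4 := by unfold mm; linarith [cos_le_one y]

lemma hasDerivAt_mm (y : ℝ) : HasDerivAt mm (dm y) y := by
  exact (hasDerivAt_cos y).const_add 3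

lemma hasDerivAt_ff (y : ℝ) : HasDerivAt ff (df y) y := by
  have h1 := ((hasDerivAt_cos y).const_sub 2).mul ((hasDerivAt_cos y).const_add 3)
  refine HasDerivAt.congr_deriv (f := ff) h1 ?_
  simp only [df]; ring

lemma hasDerivAt_p1 (y : ℝ) : HasDerivAt p1 (p2 y) y := by
  have h1 := ((hasDerivAt_sin y).mul ((hasDerivAt_cos y).const_add 3)).mul
    (((hasDerivAt_cos y).const_mul 3).sub_const 1)
  refine HasDerivAt.congr_deriv (f := p1) h1 ?_
  simp only [p2, Pi.mul_apply]; ring

lemma p1_eq (y : ℝ) : p1 y = dm y * ff y + mm y * df y := by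
  unfold p1 dm ff mm df; ring

lemma abs_p2_le (y : ℝ) : |p2 y| ≤ 42 := by
  have h1 := neg_one_le_cos y
  have h2 := cos_le_one y
  have h3 : sin y ^ 2 = 1 - cos y ^ 2 := by have := sin_sq_add_cos_sq y; linarith
  have : p2 y = 9 * cos y ^ 3 + 16 * cos y ^ 2 - 9 * cos y - 8 := by
    unfold p2; rw [h3]; ring
  rw [this]
  have a1 : |cos y| ≤ 1 := abs_le.2 ⟨h1, h2⟩
  have a2 : |cos y ^ 2| ≤ 1 := by rw [abs_pow]; exact pow_le_one₀ (abs_nonneg _) a1
  have a3 : |cos y ^ 3| ≤ 1 := by rw [abs_pow]; exact pow_le_one₀ (abs_nonneg _) a1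
  rw [abs_le] at *
  constructor <;> linarith [a1.1, a1.2, a2.1, a2.2, a3.1, a3.2]

lemma contDiff_mm : ContDiff ℝ ∞ mm := by unfold mm; fun_prop
lemma contDiff_ff : ContDiff ℝ ∞ ff := by unfold ff; fun_prop
lemma continuous_dm : Continuous dm := by unfold dm; fun_prop
lemma continuous_df : Continuous df := by unfold df; fun_prop
lemma continuous_p1 : Continuous p1 := by unfold p1; fun_prop
lemma continuous_p2 : Continuous p2 := by unfold p2; fun_prop
lemma continuous_mm : Continuous mm := contDiff_mm.continuous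
lemma continuous_ff : Continuous ff := contDiff_ff.continuous

/-- The metric `m(y) dx² + m(y)⁻¹ dy²` on the torus `ℝ² / (L ℤ × 2π ℤ)`. -/
noncomputable def exG (L : ℝ) : TorusMetric L (2 * π) where
  g := fun i j => if i = j then (if i = 0 then fun _ y => mm y else fun _ y => (mm y)⁻¹)
    else fun _ _ => 0
  smooth := by
    intro i j
    by_cases h : i = j
    · by_cases h0 : i = 0
      · simp only [h, h0, if_true]
        subst h; simp only [h0, if_true]
        exact contDiff_mm.comp contDiff_snd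
      · subst h; simp only [h0, if_true, if_false]
        exact (contDiff_mm.comp contDiff_snd).inv fun q => (mm_pos q.2).ne'
    · simp only [h, if_false]
      exact contDiff_const
  periodic := by
    intro i j x y
    by_cases h : i = j
    · by_cases h0 : i = 0
      · subst h; simp [h0, mm]
      · subst h; simp [h0, mm]
    · simp [h]
  symm := by
    intro i j
    by_cases h : i = j
    · subst h; rfl
    · simp [h, Ne.symm h]
  pos := by intro x y; simpa using mm_pos y
  det_pos := by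
    intro x y
    have := (mm_pos y).ne'
    simp [this]

@[simp] lemma exG_00 (L : ℝ) : (exG L).g 0 0 = fun _ y => mm y := by simp [exG]
@[simp] lemma exG_11 (L : ℝ) : (exG L).g 1 1 = fun _ y => (mm y)⁻¹ := by simp [exG]
@[simp] lemma exG_01 (L : ℝ) : (exG L).g 0 1 = fun _ _ => 0 := by simp [exG]
@[simp] lemma exG_10 (L : ℝ) : (exG L).g 1 0 = fun _ _ => 0 := by simp [exG]

lemma exG_density (L : ℝ) (x y : ℝ) : (exG L).density x y = 1 := by
  have := (mm_pos y).ne'
  simp [TorusMetric.density, this]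

lemma pd_zero (u : ℝ → ℝ → ℝ) (x y : ℝ) : pd 0 u x y = deriv (fun r => u r y) x := by
  simp [pd]
lemma pd_one (u : ℝ → ℝ → ℝ) (x y : ℝ) : pd 1 u x y = deriv (fun r => u x r) y := by
  simp [pd]

lemma divFree_exG (L : ℝ) (u : VField) :
    DivFree (exG L) u ↔ ∀ x y, deriv (fun r => u 0 r y) x + deriv (fun r => u 1 x r) y = 0 := by
  simp [DivFree, Fin.sum_univ_two, pd_zero, pd_one, exG_density]

lemma deriv_mm (y : ℝ) : deriv (fun r => mm r) y = dm y := (hasDerivAt_mm y).deriv
lemma deriv_ff (y : ℝ) : deriv (fun r => ff r) y = df y := (hasDerivAt_ff y).deriv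
lemma deriv_mm_inv (y : ℝ) : deriv (fun r => (mm r)⁻¹) y = - dm y / mm y ^ 2 :=
  ((hasDerivAt_mm y).inv (mm_pos y).ne').deriv

lemma nabla_exG_zero (L : ℝ) (v w : VField) (x y : ℝ) :
    nabla (exG L) v w 0 x y = mm y * (v 0 x y * deriv (fun r => w 0 r y) x
      + v 1 x y * deriv (fun r => w 0 x r) y)
      + 1 / 2 * dm y * (v 0 x y * w 1 x y + v 1 x y * w 0 x y) := by
  simp [nabla, Fin.sum_univ_two, pd_zero, pd_one, deriv_mm]
  ring

lemma nabla_exG_one (L : ℝ) (v w : VField) (x y : ℝ) :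
    nabla (exG L) v w 1 x y = (mm y)⁻¹ * (v 0 x y * deriv (fun r => w 1 r y) x
      + v 1 x y * deriv (fun r => w 1 x r) y)
      - 1 / 2 * dm y * (v 0 x y * w 0 x y) - 1 / 2 * (dm y / mm y ^ 2) * (v 1 x y * w 1 x y) := by
  simp [nabla, Fin.sum_univ_two, pd_zero, pd_one, deriv_mm, deriv_mm_inv]
  ring

/-- The shear flow `f(y) ∂_x`. -/
noncomputable def exV : VField := fun i => if i = 0 then fun _ y => ff y else fun _ _ => 0

@[simp] lemma exV_0 : exV 0 = fun _ y => ff y := by simp [exV]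
@[simp] lemma exV_1 : exV 1 = fun _ _ => 0 := by simp [exV]

end Pool.Agent.Helper115.FC
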