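import Pool.Agent.Helper115.FC.Defs

set_option autoImplicit false

open Real MeasureTheory intervalIntegral


namespace Pool.Agent.Helper115.FC


theorem inHs_trig_J (m : ℤ) (hm : m ≠ 0) :
    ∫ y in (0 : ℝ)..(2 * π), Complex.exp ((m : ℂ) * Complex.I * y) = 0 := by
  have hc : (m : ℂ) * Complex.I ≠ 0 := mul_ne_zero (by exact_mod_cast hm) Complex.I_ne_zero
  rw [integral_exp_mul_complex hc]
  have h1 : Complex.exp ((m : ℂ) * Complex.I * ((2 * π : ℝ) : ℂ)) = 1 := by
    rw [Complex.exp_eq_one_iff]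
    exact ⟨m, by push_cast; ring⟩
  rw [h1]
  simp

theorem inHs_trig_K (a : ℝ) (ha : 0 < a) (k : ℤ) (hk : k ≠ 0) :
    ∫ x in (0 : ℝ)..a, Complex.exp (-(2 * π * (k * x / a) : ℝ) * Complex.I) = 0 := by
  have hc : -(2 * π * k / a : ℂ) * Complex.I ≠ 0 := by
    apply mul_ne_zero _ Complex.I_ne_zero
    rw [neg_ne_zero]
    have h1 : (π : ℂ) ≠ 0 := by exact_mod_cast Real.pi_ne_zero
    have h2 : (k : ℂ) ≠ 0 := by exact_mod_cast hk
    have h3 : (a : ℂ) ≠ 0 := by exact_mod_cast ha.ne'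
    exact div_ne_zero (mul_ne_zero (mul_ne_zero two_ne_zero h1) h2) h3
  have h0 : ∀ x : ℝ, Complex.exp (-(2 * π * (k * x / a) : ℝ) * Complex.I) =
      Complex.exp (-(2 * π * k / a : ℂ) * Complex.I * x) := by
    intro x
    congr 1
    push_cast
    ring
  simp only [h0]
  rw [integral_exp_mul_complex hc]
  have h3 : (a : ℂ) ≠ 0 := by exact_mod_cast ha.ne'
  have h1 : Complex.exp (-(2 * π * k / a : ℂ) * Complex.I * (a : ℂ)) = 1 := by
    rw [Complex.exp_eq_one_iff]
    refine ⟨-k, ?_⟩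
    push_cast
    field_simp
  rw [h1]
  simp

theorem inHs_trig_L (l : ℤ) (hl : 2 < |l|) (c0 c1 c2 c3 c4 : ℝ) :
    ∫ y in (0 : ℝ)..(2 * π), ((c0 + c1 * cos y + c2 * sin y + c3 * cos (2 * y) + c4 * sin (2 * y) : ℝ) : ℂ) *
      Complex.exp (-(2 * π * (l * y / (2 * π)) : ℝ) * Complex.I) = 0 := by
  have hpi : (π : ℝ) ≠ 0 := Real.pi_ne_zero
  have h0 : ∀ y : ℝ, ((c0 + c1 * cos y + c2 * sin y + c3 * cos (2 * y) + c4 * sin (2 * y) : ℝ) : ℂ) *
      Complex.exp (-(2 * π * (l * y / (2 * π)) : ℝ) * Complex.I) =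
      ∑ j : Fin 5, (![(c0 : ℂ), (c1 / 2 - c2 * Complex.I / 2 : ℂ), (c1 / 2 + c2 * Complex.I / 2 : ℂ),
        (c3 / 2 - c4 * Complex.I / 2 : ℂ), (c3 / 2 + c4 * Complex.I / 2 : ℂ)] : Fin 5 → ℂ) j *
        Complex.exp ((((![-l, 1 - l, -1 - l, 2 - l, -2 - l] : Fin 5 → ℤ) j : ℤ) : ℂ) * Complex.I * y) := by
    intro y
    have e0 : (2 * π * (l * y / (2 * π)) : ℝ) = l * y := by field_simp
    rw [e0]
    have f0 : Complex.exp (((-l : ℤ) : ℂ) * Complex.I * y) =
        Complex.exp (-((l * y : ℝ) : ℂ) * Complex.I) := by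
      congr 1; push_cast; ring
    have f1 : Complex.exp (((1 - l : ℤ) : ℂ) * Complex.I * y) =
        Complex.exp (y * Complex.I) * Complex.exp (-((l * y : ℝ) : ℂ) * Complex.I) := by
      rw [← Complex.exp_add]; congr 1; push_cast; ring
    have f2 : Complex.exp (((-1 - l : ℤ) : ℂ) * Complex.I * y) =
        Complex.exp (-y * Complex.I) * Complex.exp (-((l * y : ℝ) : ℂ) * Complex.I) := by
      rw [← Complex.exp_add]; congr 1; push_cast; ring
    have f3 : Complex.exp (((2 - l : ℤ) : ℂ) * Complex.I * y) =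
        Complex.exp (2 * y * Complex.I) * Complex.exp (-((l * y : ℝ) : ℂ) * Complex.I) := by
      rw [← Complex.exp_add]; congr 1; push_cast; ring
    have f4 : Complex.exp (((-2 - l : ℤ) : ℂ) * Complex.I * y) =
        Complex.exp (-(2 * y) * Complex.I) * Complex.exp (-((l * y : ℝ) : ℂ) * Complex.I) := by
      rw [← Complex.exp_add]; congr 1; push_cast; ring
    rw [Fin.sum_univ_five]
    simp only [Matrix.cons_val_zero, Matrix.cons_val_one, Matrix.cons_val, Fin.isValue]
    rw [f0, f1, f2, f3, f4]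
    generalize Complex.exp (-((l * y : ℝ) : ℂ) * Complex.I) = W
    have g1 : ((cos y : ℝ) : ℂ) = (Complex.exp (y * Complex.I) + Complex.exp (-y * Complex.I)) / 2 := by
      rw [Complex.ofReal_cos]; rfl
    have g2 : ((sin y : ℝ) : ℂ) =
        (Complex.exp (-y * Complex.I) - Complex.exp (y * Complex.I)) * Complex.I / 2 := by
      rw [Complex.ofReal_sin]; rfl
    have g3 : ((cos (2 * y) : ℝ) : ℂ) =
        (Complex.exp (2 * y * Complex.I) + Complex.exp (-(2 * y) * Complex.I)) / 2 := by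
      rw [Complex.ofReal_cos, Complex.ofReal_mul]; rfl
    have g4 : ((sin (2 * y) : ℝ) : ℂ) =
        (Complex.exp (-(2 * y) * Complex.I) - Complex.exp (2 * y * Complex.I)) * Complex.I / 2 := by
      rw [Complex.ofReal_sin, Complex.ofReal_mul]; rfl
    simp only [Complex.ofReal_add, Complex.ofReal_mul (r := c1), Complex.ofReal_mul (r := c2),
      Complex.ofReal_mul (r := c3), Complex.ofReal_mul (r := c4)]
    rw [g1, g2, g3, g4]
    ring
  simp only [h0]
  rw [intervalIntegral.integral_finsetSum]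
  · apply Finset.sum_eq_zero
    intro j _
    rw [intervalIntegral.integral_const_mul, inHs_trig_J, mul_zero]
    have hl' := lt_abs.1 hl
    fin_cases j <;> simp <;> omega
  · intro j _
    apply Continuous.intervalIntegrable
    fun_prop

theorem inHs_trig (a : ℝ) (ha : 0 < a) (s c0 c1 c2 c3 c4 : ℝ) :
    InHs a (2 * π) s (fun _ y =>
      c0 + c1 * cos y + c2 * sin y + c3 * cos (2 * y) + c4 * sin (2 * y)) := by
  have hsplit : ∀ k l : ℤ, fourierCoef a (2 * π) (fun _ y =>
      c0 + c1 * cos y + c2 * sin y + c3 * cos (2 * y) + c4 * sin (2 * y)) k l =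
      (∫ x in (0 : ℝ)..a, Complex.exp (-(2 * π * (k * x / a) : ℝ) * Complex.I)) *
      ∫ y in (0 : ℝ)..(2 * π), ((c0 + c1 * cos y + c2 * sin y + c3 * cos (2 * y) +
        c4 * sin (2 * y) : ℝ) : ℂ) * Complex.exp (-(2 * π * (l * y / (2 * π)) : ℝ) * Complex.I) := by
    intro k l
    unfold fourierCoef
    rw [← intervalIntegral.integral_mul_const]
    apply intervalIntegral.integral_congr
    intro x _
    beta_reduce
    rw [← intervalIntegral.integral_const_mul]
    apply intervalIntegral.integral_congr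
    intro y _
    beta_reduce
    have h1 : Complex.exp (-(2 * π * (k * x / a + l * y / (2 * π)) : ℝ) * Complex.I) =
        Complex.exp (-(2 * π * (k * x / a) : ℝ) * Complex.I) *
          Complex.exp (-(2 * π * (l * y / (2 * π)) : ℝ) * Complex.I) := by
      rw [← Complex.exp_add]
      congr 1
      push_cast
      ring
    rw [h1]
    ring
  apply summable_of_ne_finset_zero (s := {0} ×ˢ Finset.Icc (-2 : ℤ) 2)
  rintro ⟨k, l⟩ hkl
  rw [Finset.mem_product, not_and_or] at hkl
  have hz : fourierCoef a (2 * π) (fun _ y =>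
      c0 + c1 * cos y + c2 * sin y + c3 * cos (2 * y) + c4 * sin (2 * y)) k l = 0 := by
    rw [hsplit]
    rcases hkl with h | h
    · rw [inHs_trig_K a ha k (by simpa using h), zero_mul]
    · rw [inHs_trig_L l _ c0 c1 c2 c3 c4, mul_zero]
      rw [Finset.mem_Icc] at h
      by_contra hc
      push Not at hc
      exact h (abs_le.1 hc)
  rw [hz]
  simp


end Pool.Agent.Helper115.FC
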