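import Pool.Agent.Helper115.FC.Ex

set_option autoImplicit false

open Real MeasureTheory intervalIntegral
open scoped ContDiff

namespace Pool.Agent.Helper115.FC

/-- The linearised equations along `f(y) ∂_x` for the metric `m(y) dx² + m(y)⁻¹ dy²`. -/
structure LinSys (L : ℝ) (w0 w1 z0 z1 : ℝ → ℝ → ℝ → ℝ) : Prop where
  cw0 : ContDiff ℝ 1 (fun q : ℝ × ℝ × ℝ => w0 q.1 q.2.1 q.2.2)
  cw1 : ContDiff ℝ 1 (fun q : ℝ × ℝ × ℝ => w1 q.1 q.2.1 q.2.2)
  cz0 : ContDiff ℝ 1 (fun q : ℝ × ℝ × ℝ => z0 q.1 q.2.1 q.2.2)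
  cz1 : ContDiff ℝ 1 (fun q : ℝ × ℝ × ℝ => z1 q.1 q.2.1 q.2.2)
  pw0 : ∀ t, Periodic2 L (2 * π) (w0 t)
  pw1 : ∀ t, Periodic2 L (2 * π) (w1 t)
  pz0 : ∀ t, Periodic2 L (2 * π) (z0 t)
  pz1 : ∀ t, Periodic2 L (2 * π) (z1 t)
  dw : ∀ t x y, deriv (fun r => w0 t r y) x + deriv (fun r => w1 t x r) y = 0
  dz : ∀ t x y, deriv (fun r => z0 t r y) x + deriv (fun r => z1 t x r) y = 0
  flow0 : ∀ t x y, deriv (fun τ => z0 τ x y) t + ff y * deriv (fun r => z0 t r y) x
    - df y * z1 t x y = w0 t x y
  flow1 : ∀ t x y, deriv (fun τ => z1 τ x y) t + ff y * deriv (fun r => z1 t r y) x = w1 t x y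
  eul : ∀ t, ∃ q : ℝ → ℝ → ℝ, ContDiff ℝ 1 (Function.uncurry q) ∧ Periodic2 L (2 * π) q ∧
    ∀ x y, mm y * (deriv (fun τ => w0 τ x y) t + ff y * deriv (fun r => w0 t r y) x)
        + p1 y * w1 t x y = -deriv (fun r => q r y) x ∧
      (mm y)⁻¹ * (deriv (fun τ => w1 τ x y) t + ff y * deriv (fun r => w1 t r y) x)
        - dm y * ff y * w0 t x y = -deriv (fun r => q x r) y

lemma euler0_eq (L : ℝ) (w : ℝ → VField) (t x y : ℝ) :
    ∑ l, (exG L).g 0 l x y * deriv (fun τ => w τ l x y) t
      + nabla (exG L) exV (w t) 0 x y + nabla (exG L) (w t) exV 0 x y =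
    mm y * (deriv (fun τ => w τ 0 x y) t + ff y * deriv (fun r => w t 0 r y) x)
        + p1 y * w t 1 x y := by
  rw [nabla_exG_zero, nabla_exG_zero, p1_eq]
  simp [Fin.sum_univ_two, deriv_ff]
  ring

lemma euler1_eq (L : ℝ) (w : ℝ → VField) (t x y : ℝ) :
    ∑ l, (exG L).g 1 l x y * deriv (fun τ => w τ l x y) t
      + nabla (exG L) exV (w t) 1 x y + nabla (exG L) (w t) exV 1 x y =
    (mm y)⁻¹ * (deriv (fun τ => w τ 1 x y) t + ff y * deriv (fun r => w t 1 r y) x)
        - dm y * ff y * w t 0 x y := by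
  rw [nabla_exG_one, nabla_exG_one]
  simp [Fin.sum_univ_two]
  ring

lemma flow0_eq (z : VField) (x y : ℝ) :
    bracket exV z 0 x y = ff y * deriv (fun r => z 0 r y) x - df y * z 1 x y := by
  simp [bracket, Fin.sum_univ_two, pd_zero, pd_one, deriv_ff]
  ring

lemma flow1_eq (z : VField) (x y : ℝ) :
    bracket exV z 1 x y = ff y * deriv (fun r => z 1 r y) x := by
  simp [bracket, Fin.sum_univ_two, pd_zero, pd_one]

theorem linSys_of_isJacobi {L s : ℝ} {w z : ℝ → VField}
    (h : IsJacobi (exG L) s (fun _ => exV) w z) :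
    LinSys L (fun t => w t 0) (fun t => w t 1) (fun t => z t 0) (fun t => z t 1) where
  cw0 := h.c1_w 0
  cw1 := h.c1_w 1
  cz0 := h.c1_z 0
  cz1 := h.c1_z 1
  pw0 := fun t => (h.tangent_w t).periodic 0
  pw1 := fun t => (h.tangent_w t).periodic 1
  pz0 := fun t => (h.tangent_z t).periodic 0
  pz1 := fun t => (h.tangent_z t).periodic 1
  dw := fun t => (divFree_exG L _).1 (h.tangent_w t).div
  dz := fun t => (divFree_exG L _).1 (h.tangent_z t).div
  flow0 := fun t x y => by
    have := h.flow t 0 x y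
    rw [flow0_eq] at this
    linarith
  flow1 := fun t x y => by
    have := h.flow t 1 x y
    rw [flow1_eq] at this
    linarith
  eul := fun t => by
    obtain ⟨q, hq, hp, he⟩ := h.euler t
    refine ⟨q, hq, hp, fun x y => ⟨?_, ?_⟩⟩
    · have := he 0 x y
      beta_reduce at this
      rw [euler0_eq, pd_zero] at this
      exact this
    · have := he 1 x y
      beta_reduce at this
      rw [euler1_eq, pd_one] at this
      exact this

theorem isJacobi_of_linSys {L s : ℝ} {w z : ℝ → VField}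
    (h : LinSys L (fun t => w t 0) (fun t => w t 1) (fun t => z t 0) (fun t => z t 1))
    (hw : ∀ t i, InHs L (2 * π) s (w t i)) (hz : ∀ t i, InHs L (2 * π) s (z t i)) :
    IsJacobi (exG L) s (fun _ => exV) w z where
  tangent_w := fun t =>
    { c1 := by
        intro i; fin_cases i
        · exact h.cw0.comp (contDiff_prodMk_right t)
        · exact h.cw1.comp (contDiff_prodMk_right t)
      periodic := by
        intro i; fin_cases i
        · exact h.pw0 t
        · exact h.pw1 t
      hs := hw t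
      div := (divFree_exG L _).2 (h.dw t) }
  tangent_z := fun t =>
    { c1 := by
        intro i; fin_cases i
        · exact h.cz0.comp (contDiff_prodMk_right t)
        · exact h.cz1.comp (contDiff_prodMk_right t)
      periodic := by
        intro i; fin_cases i
        · exact h.pz0 t
        · exact h.pz1 t
      hs := hz t
      div := (divFree_exG L _).2 (h.dz t) }
  c1_w := by
    intro i; fin_cases i
    · exact h.cw0
    · exact h.cw1
  c1_z := by
    intro i; fin_cases i
    · exact h.cz0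
    · exact h.cz1
  flow := by
    intro t i x y; fin_cases i
    · have := h.flow0 t x y
      simp only [Fin.zero_eta, flow0_eq]
      linarith
    · have := h.flow1 t x y
      simp only [Fin.mk_one, flow1_eq]
      linarith
  euler := fun t => by
    obtain ⟨q, hq, hp, he⟩ := h.eul t
    refine ⟨q, hq, hp, fun k x y => ?_⟩
    fin_cases k
    · simp only [Fin.zero_eta]
      rw [euler0_eq, pd_zero]
      exact (he x y).1
    · simp only [Fin.mk_one]
      rw [euler1_eq, pd_one]
      exact (he x y).2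

end Pool.Agent.Helper115.FC
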