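import Mathlib

set_option autoImplicit false

open Real MeasureTheory intervalIntegral Set
open scoped ComplexConjugate

namespace Pool.Agent.Helper115.FC

theorem intR {E : Type*} [NormedAddCommGroup E] (F : ℝ → ℝ → E)
    (hF : Continuous (Function.uncurry F)) (T b : ℝ) :
    IntegrableOn (fun z : ℝ × ℝ => F z.1 z.2) (Icc 0 T ×ˢ Icc 0 b) volume :=
  (hF.continuousOn).integrableOn_compact (isCompact_Icc.prod isCompact_Icc)

theorem iter1 {E : Type*} [NormedAddCommGroup E] [NormedSpace ℝ E] (F : ℝ → ℝ → E)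
    (hF : Continuous (Function.uncurry F)) {T b : ℝ} (hT : 0 ≤ T) (hb : 0 ≤ b) :
    ∫ z in Icc 0 T ×ˢ Icc 0 b, F z.1 z.2 = ∫ t in (0:ℝ)..T, ∫ y in (0:ℝ)..b, F t y := by
  have h := intR F hF T b
  rw [Measure.volume_eq_prod] at h ⊢
  rw [setIntegral_prod _ h, intervalIntegral.integral_of_le hT, integral_Icc_eq_integral_Ioc]
  refine integral_congr_ae (Filter.Eventually.of_forall fun t => ?_)
  simp only
  rw [intervalIntegral.integral_of_le hb, integral_Icc_eq_integral_Ioc]

theorem iter2 {E : Type*} [NormedAddCommGroup E] [NormedSpace ℝ E] (F : ℝ → ℝ → E)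
    (hF : Continuous (Function.uncurry F)) {T b : ℝ} (hT : 0 ≤ T) (hb : 0 ≤ b) :
    ∫ z in Icc 0 T ×ˢ Icc 0 b, F z.1 z.2 = ∫ y in (0:ℝ)..b, ∫ t in (0:ℝ)..T, F t y := by
  have h2 := iter1 (fun y t => F t y) (T := b) (b := T) (hF.comp continuous_swap) hb hT
  rw [← h2]
  rw [Measure.volume_eq_prod]
  exact (setIntegral_prod_swap (μ := (volume : Measure ℝ)) (ν := (volume : Measure ℝ)) (Icc (0:ℝ) T) (Icc (0:ℝ) b) (fun z : ℝ × ℝ => F z.1 z.2)).symm

theorem cs {h : ℝ → ℝ} (hc : Continuous h) {T : ℝ} (hT : 0 < T) :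
    (∫ t in (0:ℝ)..T, h t) ^ 2 ≤ T * ∫ t in (0:ℝ)..T, h t ^ 2 := by
  set g := ∫ t in (0:ℝ)..T, h t with hg
  have h1 : 0 ≤ ∫ t in (0:ℝ)..T, (h t - g / T) ^ 2 :=
    intervalIntegral.integral_nonneg hT.le fun t _ => sq_nonneg _
  have h2 : ∫ t in (0:ℝ)..T, (h t - g / T) ^ 2 =
      (∫ t in (0:ℝ)..T, h t ^ 2) - 2 * (g / T) * g + (g / T) ^ 2 * T := by
    have : ∀ t, (h t - g / T) ^ 2 = h t ^ 2 - 2 * (g / T) * h t + (g / T) ^ 2 := fun t => by ring
    simp only [this]
    rw [intervalIntegral.integral_add, intervalIntegral.integral_sub,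
      intervalIntegral.integral_const_mul, ← hg, intervalIntegral.integral_const]
    · simp; ring
    · exact (hc.pow 2).intervalIntegrable _ _
    · exact (hc.const_mul _).intervalIntegrable _ _
    · exact ((hc.pow 2).sub (hc.const_mul _)).intervalIntegrable _ _
    · exact intervalIntegrable_const
  rw [h2] at h1
  have h3 : (∫ t in (0:ℝ)..T, h t ^ 2) - 2 * (g / T) * g + (g / T) ^ 2 * T =
    (∫ t in (0:ℝ)..T, h t ^ 2) - g ^ 2 / T := by field_simp; ring
  rw [h3] at h1
  have h4 : g ^ 2 / T ≤ ∫ t in (0:ℝ)..T, h t ^ 2 := by linarith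
  rw [div_le_iff₀ hT] at h4
  linarith

theorem mode_zero (m f dm df p1 p2 : ℝ → ℝ) (hmc : Continuous m) (hfc : Continuous f)
    (hdm : Continuous dm) (hdf : Continuous df) (hp2c : Continuous p2)
    (hp1 : ∀ y, HasDerivAt p1 (p2 y) y) (hp : ∀ y, p1 y = dm y * f y + m y * df y)
    (hm0 : ∀ y, 0 < m y) (K P T κ : ℝ) (hK : ∀ y, m y ≤ K) (hP : ∀ y, |p2 y| ≤ P)
    (hT : 0 < T) (hκ : K * P * T < |κ|) (b : ℝ) (hb : 0 < b) (hperp : p1 b = p1 0)
    (A B C S Q At Bt Ct St By Sy Qy : ℝ → ℝ → ℂ)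
    (cA : Continuous (Function.uncurry A)) (cB : Continuous (Function.uncurry B))
    (cC : Continuous (Function.uncurry C)) (cS : Continuous (Function.uncurry S))
    (cAt : Continuous (Function.uncurry At)) (cBt : Continuous (Function.uncurry Bt))
    (cCt : Continuous (Function.uncurry Ct)) (cSt : Continuous (Function.uncurry St))
    (cBy : Continuous (Function.uncurry By)) (cSy : Continuous (Function.uncurry Sy))
    (dA : ∀ t y, HasDerivAt (fun τ => A τ y) (At t y) t)
    (dB : ∀ t y, HasDerivAt (fun τ => B τ y) (Bt t y) t)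
    (dC : ∀ t y, HasDerivAt (fun τ => C τ y) (Ct t y) t)
    (dS : ∀ t y, HasDerivAt (fun τ => S τ y) (St t y) t)
    (dyB : ∀ t y, HasDerivAt (fun r => B t r) (By t y) y)
    (dyS : ∀ t y, HasDerivAt (fun r => S t r) (Sy t y) y)
    (dyQ : ∀ t y, HasDerivAt (fun r => Q t r) (Qy t y) y)
    (perB : ∀ t, B t b = B t 0) (perS : ∀ t, S t b = S t 0) (perQ : ∀ t, Q t b = Q t 0)
    (e1 : ∀ t y, (m y : ℂ) * (At t y + Complex.I * κ * f y * A t y) + p1 y * B t y
      = -(Complex.I * κ * Q t y))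
    (e2 : ∀ t y, ((1 / m y : ℝ) : ℂ) * (Bt t y + Complex.I * κ * f y * B t y)
      - dm y * f y * A t y = -Qy t y)
    (e3 : ∀ t y, Complex.I * κ * A t y + By t y = 0)
    (e4 : ∀ t y, Ct t y + Complex.I * κ * f y * C t y - df y * S t y = A t y)
    (e5 : ∀ t y, St t y + Complex.I * κ * f y * S t y = B t y)
    (e6 : ∀ t y, Complex.I * κ * C t y + Sy t y = 0)
    (S0 : ∀ y, S 0 y = 0) (ST : ∀ y, S T y = 0) (C0 : ∀ y, C 0 y = 0) (CT : ∀ y, C T y = 0) :
    ∀ t ∈ Icc 0 T, ∀ y ∈ Icc 0 b, B t y = 0 := by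
  have hdp : 0 ≤ P := (abs_nonneg _).trans (hP 0)
  have hK0 : 0 < K := (hm0 0).trans_le (hK 0)
  have hκ0 : 0 < |κ| := lt_of_le_of_lt (by positivity) hκ
  have hκne : (κ : ℂ) ≠ 0 := by
    have : κ ≠ 0 := abs_pos.1 hκ0
    exact_mod_cast this
  have hmne : ∀ y, (m y : ℂ) ≠ 0 := fun y => by exact_mod_cast (hm0 y).ne'
  have p1c : Continuous p1 := continuous_iff_continuousAt.2 fun y => (hp1 y).continuousAt
  -- continuity of the pieces
  have cA' : Continuous fun z : ℝ × ℝ => A z.1 z.2 := cA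
  have cB' : Continuous fun z : ℝ × ℝ => B z.1 z.2 := cB
  have cC' : Continuous fun z : ℝ × ℝ => C z.1 z.2 := cC
  have cS' : Continuous fun z : ℝ × ℝ => S z.1 z.2 := cS
  have cAt' : Continuous fun z : ℝ × ℝ => At z.1 z.2 := cAt
  have cBt' : Continuous fun z : ℝ × ℝ => Bt z.1 z.2 := cBt
  have cBy' : Continuous fun z : ℝ × ℝ => By z.1 z.2 := cBy
  have cSy' : Continuous fun z : ℝ × ℝ => Sy z.1 z.2 := cSy
  have cm : Continuous fun z : ℝ × ℝ => (m z.2 : ℂ) :=
    Complex.continuous_ofReal.comp (hmc.comp continuous_snd)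
  have cmi : Continuous fun z : ℝ × ℝ => (((1 / m z.2 : ℝ)) : ℂ) :=
    Complex.continuous_ofReal.comp ((continuous_const.div hmc fun y => (hm0 y).ne').comp continuous_snd)
  have cf : Continuous fun z : ℝ × ℝ => (f z.2 : ℂ) :=
    Complex.continuous_ofReal.comp (hfc.comp continuous_snd)
  have cdm : Continuous fun z : ℝ × ℝ => (dm z.2 : ℂ) :=
    Complex.continuous_ofReal.comp (hdm.comp continuous_snd)
  have cp1 : Continuous fun z : ℝ × ℝ => (p1 z.2 : ℂ) :=
    Complex.continuous_ofReal.comp (p1c.comp continuous_snd)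
  have cp2 : Continuous fun z : ℝ × ℝ => (p2 z.2 : ℂ) :=
    Complex.continuous_ofReal.comp (hp2c.comp continuous_snd)
  set L : ℝ → ℝ → ℂ := fun t y =>
    ((m y : ℂ) * (At t y + Complex.I * κ * f y * A t y) + p1 y * B t y) * conj (C t y) +
    (((1 / m y : ℝ) : ℂ) * (Bt t y + Complex.I * κ * f y * B t y) - dm y * f y * A t y) * conj (S t y)
    with hL
  set X : ℝ → ℝ → ℂ := fun t y => p1 y * (B t y * conj (C t y) - A t y * conj (S t y)) with hX
  set Ee : ℝ → ℝ → ℂ := fun t y => ((m y * ‖A t y‖ ^ 2 + 1 / m y * ‖B t y‖ ^ 2 : ℝ) : ℂ) with hE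
  set Y : ℝ → ℝ → ℂ := fun t y => Complex.I / κ * p2 y * (B t y * conj (S t y)) with hY
  have cL : Continuous (Function.uncurry L) := by
    have : Function.uncurry L = fun z : ℝ × ℝ =>
      ((m z.2 : ℂ) * (At z.1 z.2 + Complex.I * κ * f z.2 * A z.1 z.2) + p1 z.2 * B z.1 z.2) * conj (C z.1 z.2) +
    (((1 / m z.2 : ℝ) : ℂ) * (Bt z.1 z.2 + Complex.I * κ * f z.2 * B z.1 z.2) - dm z.2 * f z.2 * A z.1 z.2) * conj (S z.1 z.2) := by
      ext ⟨t, y⟩; rfl
    rw [this]
    exact (((cm.mul (cAt'.add ((continuous_const.mul cf).mul cA'))).add (cp1.mul cB')).mul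
      (Complex.continuous_conj.comp cC')).add
      (((cmi.mul (cBt'.add ((continuous_const.mul cf).mul cB'))).sub ((cdm.mul cf).mul cA')).mul
      (Complex.continuous_conj.comp cS'))
  have cX : Continuous (Function.uncurry X) := by
    have : Function.uncurry X = fun z : ℝ × ℝ =>
      (p1 z.2 : ℂ) * (B z.1 z.2 * conj (C z.1 z.2) - A z.1 z.2 * conj (S z.1 z.2)) := by
      ext ⟨t, y⟩; rfl
    rw [this]
    exact cp1.mul ((cB'.mul (Complex.continuous_conj.comp cC')).sub
      (cA'.mul (Complex.continuous_conj.comp cS')))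
  have cEr : Continuous fun z : ℝ × ℝ => m z.2 * ‖A z.1 z.2‖ ^ 2 + 1 / m z.2 * ‖B z.1 z.2‖ ^ 2 :=
    ((hmc.comp continuous_snd).mul (cA'.norm.pow 2)).add
      (((continuous_const.div hmc fun y => (hm0 y).ne').comp continuous_snd).mul (cB'.norm.pow 2))
  have cE : Continuous (Function.uncurry Ee) := by
    have : Function.uncurry Ee = fun z : ℝ × ℝ =>
      ((m z.2 * ‖A z.1 z.2‖ ^ 2 + 1 / m z.2 * ‖B z.1 z.2‖ ^ 2 : ℝ) : ℂ) := by
      ext ⟨t, y⟩; rfl
    rw [this]
    exact Complex.continuous_ofReal.comp cEr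
  have cY : Continuous (Function.uncurry Y) := by
    have : Function.uncurry Y = fun z : ℝ × ℝ =>
      Complex.I / κ * p2 z.2 * (B z.1 z.2 * conj (S z.1 z.2)) := by
      ext ⟨t, y⟩; rfl
    rw [this]
    exact (continuous_const.mul cp2).mul (cB'.mul (Complex.continuous_conj.comp cS'))
  -- conjugated equations
  have e6' : ∀ t y, conj (Sy t y) = Complex.I * κ * conj (C t y) := by
    intro t y
    have h := congrArg (starRingEnd ℂ) (e6 t y)
    simp only [map_add, map_mul, Complex.conj_I, Complex.conj_ofReal, map_zero] at h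
    linear_combination h
  have e4' : ∀ t y, conj (Ct t y) = conj (A t y) + df y * conj (S t y) + Complex.I * κ * f y * conj (C t y) := by
    intro t y
    have h := congrArg (starRingEnd ℂ) (e4 t y)
    simp only [map_add, map_sub, map_mul, Complex.conj_I, Complex.conj_ofReal] at h
    linear_combination h
  have e5' : ∀ t y, conj (St t y) = conj (B t y) + Complex.I * κ * f y * conj (S t y) := by
    intro t y
    have h := congrArg (starRingEnd ℂ) (e5 t y)
    simp only [map_add, map_mul, Complex.conj_I, Complex.conj_ofReal] at h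
    linear_combination h
  have nA : ∀ z : ℂ, ((‖z‖ ^ 2 : ℝ) : ℂ) = z * conj z := by
    intro z
    rw [Complex.mul_conj, Complex.normSq_eq_norm_sq]
  -- derivative of conj
  have dconj : ∀ {g : ℝ → ℂ} {g' : ℂ} {x : ℝ}, HasDerivAt g g' x →
      HasDerivAt (fun s => conj (g s)) (conj g') x := by
    intro g g' x h
    exact h.star
  -- (a)
  have sa : ∀ t, ∫ y in (0:ℝ)..b, L t y = 0 := by
    intro t
    have hd : ∀ y, HasDerivAt (fun r => -(Q t r * conj (S t r))) (L t y) y := by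
      intro y
      have h1 := ((dyQ t y).mul (dconj (dyS t y))).neg
      refine HasDerivAt.congr_deriv h1 ?_
      simp only [hL]
      rw [e1 t y, e2 t y, e6' t y]
      ring
    have hcont : Continuous fun y => L t y := cL.comp (Continuous.prodMk_right t)
    rw [integral_eq_sub_of_hasDerivAt (fun y _ => hd y) (hcont.intervalIntegrable _ _)]
    rw [perQ t, perS t]
    ring
  -- (b)
  have sb : ∀ y, ∫ t in (0:ℝ)..T, (L t y + Ee t y - X t y) = 0 := by
    intro y
    have hd : ∀ t, HasDerivAt (fun τ => (m y : ℂ) * (A τ y * conj (C τ y)) +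
        ((1 / m y : ℝ) : ℂ) * (B τ y * conj (S τ y))) (L t y + Ee t y - X t y) t := by
      intro t
      have h1 := (((dA t y).mul (dconj (dC t y))).const_mul (m y : ℂ)).add
        (((dB t y).mul (dconj (dS t y))).const_mul ((1 / m y : ℝ) : ℂ))
      refine HasDerivAt.congr_deriv h1 ?_
      simp only [hL, hE, hX]
      have hpc : (p1 y : ℂ) = dm y * f y + m y * df y := by rw [hp y]; push_cast; ring
      push_cast [nA]
      rw [e4' t y, e5' t y]
      linear_combination (-(A t y * conj (S t y))) * hpc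
    have hcont : Continuous fun t => L t y + Ee t y - X t y :=
      ((cL.comp (Continuous.prodMk_left y)).add (cE.comp (Continuous.prodMk_left y))).sub
        (cX.comp (Continuous.prodMk_left y))
    rw [integral_eq_sub_of_hasDerivAt (fun t _ => hd t) (hcont.intervalIntegrable _ _)]
    rw [S0, ST, C0, CT]
    simp
  -- (c)
  have sc : ∀ t, ∫ y in (0:ℝ)..b, (X t y - Y t y) = 0 := by
    intro t
    have hp1C : ∀ y, HasDerivAt (fun r => (p1 r : ℂ)) (p2 y : ℂ) y := fun y => (hp1 y).ofReal_comp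
    have hd : ∀ y, HasDerivAt (fun r => -(Complex.I / κ) * ((p1 r : ℂ) * (B t r * conj (S t r))))
        (X t y - Y t y) y := by
      intro y
      have h1 := ((hp1C y).mul ((dyB t y).mul (dconj (dyS t y)))).const_mul (-(Complex.I / κ))
      refine HasDerivAt.congr_deriv h1 ?_
      simp only [hX, hY]
      rw [e6' t y]
      have h3 : By t y = -(Complex.I * κ * A t y) := by linear_combination e3 t y
      rw [h3]
      have hI : Complex.I ^ 2 = -1 := Complex.I_sq
      have hk : (κ : ℂ) * (κ : ℂ)⁻¹ = 1 := mul_inv_cancel₀ hκne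
      rw [div_eq_mul_inv]
      simp only [Pi.mul_apply]
      linear_combination (Complex.I ^ 2 * (p1 y * A t y * conj (S t y) - p1 y * B t y * conj (C t y))) * hk
        + (p1 y * A t y * conj (S t y) - p1 y * B t y * conj (C t y)) * hI
    have hcont : Continuous fun y => X t y - Y t y :=
      (cX.comp (Continuous.prodMk_right t)).sub (cY.comp (Continuous.prodMk_right t))
    rw [integral_eq_sub_of_hasDerivAt (fun y _ => hd y) (hcont.intervalIntegrable _ _)]
    rw [hperp, perB t, perS t]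
    ring
  set R : Set (ℝ × ℝ) := Icc 0 T ×ˢ Icc 0 b with hR
  have Ia : ∫ z in R, L z.1 z.2 = 0 := by
    rw [iter1 L cL hT.le hb.le]
    simp [sa]
  have Ib : ∫ z in R, (L z.1 z.2 + Ee z.1 z.2 - X z.1 z.2) = 0 := by
    rw [iter2 (fun t y => L t y + Ee t y - X t y) ((cL.add cE).sub cX) hT.le hb.le]
    simp [sb]
  have Ic : ∫ z in R, (X z.1 z.2 - Y z.1 z.2) = 0 := by
    rw [iter1 (fun t y => X t y - Y t y) (cX.sub cY) hT.le hb.le]
    simp [sc]
  have iL := intR L cL T b
  have iE := intR Ee cE T b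
  have iX := intR X cX T b
  have iY := intR Y cY T b
  have key : ∫ z in R, Ee z.1 z.2 = ∫ z in R, Y z.1 z.2 := by
    have h1 : ∫ z in R, (L z.1 z.2 + Ee z.1 z.2 - X z.1 z.2) =
        (∫ z in R, L z.1 z.2) + (∫ z in R, Ee z.1 z.2) - ∫ z in R, X z.1 z.2 := by
      rw [← integral_add iL iE]
      exact integral_sub (iL.add iE) iX
    rw [h1, Ia] at Ib
    rw [integral_sub iX iY] at Ic
    linear_combination Ib + Ic
  have keyr : ∫ z in R, (m z.2 * ‖A z.1 z.2‖ ^ 2 + 1 / m z.2 * ‖B z.1 z.2‖ ^ 2) ≤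
      ∫ z in R, ‖Y z.1 z.2‖ := by
    have h1 : ((∫ z in R, (m z.2 * ‖A z.1 z.2‖ ^ 2 + 1 / m z.2 * ‖B z.1 z.2‖ ^ 2) : ℝ) : ℂ) =
        ∫ z in R, Y z.1 z.2 := by
      rw [← key, ← integral_complex_ofReal]
    calc _ ≤ ‖((∫ z in R, (m z.2 * ‖A z.1 z.2‖ ^ 2 + 1 / m z.2 * ‖B z.1 z.2‖ ^ 2) : ℝ) : ℂ)‖ := by
          rw [Complex.norm_real]; exact le_abs_self _
      _ = ‖∫ z in R, Y z.1 z.2‖ := by rw [h1]
      _ ≤ _ := norm_integral_le_integral_norm _
  -- pointwise bound of S
  have bS : ∀ t ∈ Icc 0 T, ∀ y, ‖S t y‖ ≤ ∫ τ in (0:ℝ)..T, ‖B τ y‖ := by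
    intro t ht y
    have hd : ∀ s : ℝ, HasDerivAt (fun τ : ℝ => Complex.exp (Complex.I * κ * f y * τ) * S τ y)
        (Complex.exp (Complex.I * κ * f y * s) * B s y) s := by
      intro s
      have h0 : HasDerivAt (fun τ : ℝ => Complex.I * κ * f y * (τ : ℂ)) (Complex.I * κ * f y) s := by
        simpa using (Complex.ofRealCLM.hasDerivAt (x := s)).const_mul (Complex.I * κ * f y)
      have h1 := h0.cexp.mul (dS s y)
      refine HasDerivAt.congr_deriv h1 ?_
      rw [← e5 s y]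
      ring
    have hcont : Continuous fun s : ℝ => Complex.exp (Complex.I * κ * f y * s) * B s y :=
      (Complex.continuous_exp.comp (continuous_const.mul Complex.continuous_ofReal)).mul
        (cB'.comp (Continuous.prodMk_left y))
    have h2 := integral_eq_sub_of_hasDerivAt (a := 0) (b := t) (fun s _ => hd s)
      (hcont.intervalIntegrable _ _)
    rw [S0, mul_zero, sub_zero] at h2
    have hn : ∀ s : ℝ, ‖Complex.exp (Complex.I * κ * f y * s)‖ = 1 := by
      intro s
      rw [Complex.norm_exp]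
      simp
    have h3 : ‖S t y‖ = ‖Complex.exp (Complex.I * κ * f y * t) * S t y‖ := by
      rw [norm_mul, hn, one_mul]
    rw [h3, ← h2]
    calc _ ≤ ∫ s in (0:ℝ)..t, ‖Complex.exp (Complex.I * κ * f y * s) * B s y‖ :=
          intervalIntegral.norm_integral_le_integral_norm ht.1
      _ = ∫ s in (0:ℝ)..t, ‖B s y‖ := by simp only [norm_mul, hn, one_mul]
      _ ≤ _ := by
          refine intervalIntegral.integral_mono_interval le_rfl ht.1 ht.2
            (Filter.Eventually.of_forall fun _ => norm_nonneg _) ?_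
          exact ((cB'.comp (Continuous.prodMk_left y)).norm).intervalIntegrable _ _
  have hB2 : Continuous fun z : ℝ × ℝ => ‖B z.1 z.2‖ ^ 2 := cB'.norm.pow 2
  have hB2' : Continuous (Function.uncurry fun t y => ‖B t y‖ ^ 2) := hB2
  have hTB2 : Continuous fun z : ℝ × ℝ => T * ‖B z.1 z.2‖ ^ 2 := continuous_const.mul hB2
  have hTB2' : Continuous (Function.uncurry fun t y => T * ‖B t y‖ ^ 2) := hTB2
  have hBS : Continuous fun z : ℝ × ℝ => ‖B z.1 z.2‖ * ‖S z.1 z.2‖ := cB'.norm.mul cS'.norm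
  have hBS' : Continuous (Function.uncurry fun t y => ‖B t y‖ * ‖S t y‖) := hBS
  have hJ : ∀ y, ∫ t in (0:ℝ)..T, ‖B t y‖ * ‖S t y‖ ≤ ∫ t in (0:ℝ)..T, T * ‖B t y‖ ^ 2 := by
    intro y
    have cBy1 : Continuous fun t => B t y := cB'.comp (Continuous.prodMk_left y)
    have cSy1 : Continuous fun t => S t y := cS'.comp (Continuous.prodMk_left y)
    calc _ ≤ ∫ t in (0:ℝ)..T, ‖B t y‖ * ∫ τ in (0:ℝ)..T, ‖B τ y‖ := by
          refine intervalIntegral.integral_mono_on hT.le ?_ ?_ ?_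
          · exact (cBy1.norm.mul cSy1.norm).intervalIntegrable _ _
          · exact (cBy1.norm.mul continuous_const).intervalIntegrable _ _
          · intro t ht
            exact mul_le_mul_of_nonneg_left (bS t ht y) (norm_nonneg _)
      _ = (∫ τ in (0:ℝ)..T, ‖B τ y‖) ^ 2 := by
          rw [intervalIntegral.integral_mul_const]; ring
      _ ≤ _ := by
          rw [intervalIntegral.integral_const_mul]
          exact cs cBy1.norm hT
  have hXI : ∫ z in R, ‖B z.1 z.2‖ * ‖S z.1 z.2‖ ≤ T * ∫ z in R, ‖B z.1 z.2‖ ^ 2 := by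
    have h1 := iter2 (fun t y => ‖B t y‖ * ‖S t y‖) hBS' hT.le hb.le
    have h2 := iter2 (fun t y => T * ‖B t y‖ ^ 2) hTB2' hT.le hb.le
    rw [← MeasureTheory.integral_const_mul, h1, h2]
    have c1 : Continuous fun y => ∫ t in (0:ℝ)..T, ‖B t y‖ * ‖S t y‖ :=
      intervalIntegral.continuous_parametric_intervalIntegral_of_continuous'
        (f := fun y t => ‖B t y‖ * ‖S t y‖) (hBS.comp continuous_swap) _ _
    have c2 : Continuous fun y => ∫ t in (0:ℝ)..T, T * ‖B t y‖ ^ 2 :=
      intervalIntegral.continuous_parametric_intervalIntegral_of_continuous'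
        (f := fun y t => T * ‖B t y‖ ^ 2) (hTB2.comp continuous_swap) _ _
    exact intervalIntegral.integral_mono_on hb.le (c1.intervalIntegrable _ _)
      (c2.intervalIntegrable _ _) fun y _ => hJ y
  have hYn : ∫ z in R, ‖Y z.1 z.2‖ ≤ P / |κ| * ∫ z in R, ‖B z.1 z.2‖ * ‖S z.1 z.2‖ := by
    rw [← MeasureTheory.integral_const_mul]
    refine integral_mono iY.norm ((intR (fun t y => ‖B t y‖ * ‖S t y‖) hBS' T b).const_mul _) ?_
    intro z
    simp only [hY, norm_mul, norm_div, Complex.norm_I, Complex.norm_real, Complex.norm_conj,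
      Real.norm_eq_abs]
    have : 1 / |κ| * |p2 z.2| ≤ P / |κ| := by
      rw [one_div, mul_comm, ← div_eq_mul_inv]
      exact div_le_div_of_nonneg_right (hP _) hκ0.le
    exact mul_le_mul_of_nonneg_right this (by positivity)
  have hlow : (1 / K) * ∫ z in R, ‖B z.1 z.2‖ ^ 2 ≤
      ∫ z in R, (m z.2 * ‖A z.1 z.2‖ ^ 2 + 1 / m z.2 * ‖B z.1 z.2‖ ^ 2) := by
    rw [← MeasureTheory.integral_const_mul]
    refine integral_mono ((intR (fun t y => ‖B t y‖ ^ 2) hB2' T b).const_mul _)
      ((cEr.continuousOn).integrableOn_compact (isCompact_Icc.prod isCompact_Icc)) ?_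
    intro z
    have h1 : 1 / K ≤ 1 / m z.2 := one_div_le_one_div_of_le (hm0 _) (hK _)
    have h2 : 0 ≤ m z.2 * ‖A z.1 z.2‖ ^ 2 := mul_nonneg (hm0 _).le (sq_nonneg _)
    have h3 := mul_le_mul_of_nonneg_right h1 (sq_nonneg ‖B z.1 z.2‖)
    simp only
    linarith
  set J := ∫ z in R, ‖B z.1 z.2‖ ^ 2 with hJdef
  have hJ0 : 0 ≤ J := integral_nonneg fun z => sq_nonneg _
  have hfin : (1 / K) * J ≤ P / |κ| * (T * J) :=
    hlow.trans (keyr.trans (hYn.trans (mul_le_mul_of_nonneg_left hXI (by positivity))))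
  have hJz : J = 0 := by
    by_contra hne
    have hJp : 0 < J := lt_of_le_of_ne hJ0 (Ne.symm hne)
    have h1 : 1 / K ≤ P / |κ| * T := by
      have : (1 / K) * J ≤ (P / |κ| * T) * J := by linarith
      exact le_of_mul_le_mul_right this hJp
    have h2 : P / |κ| * T < 1 / K := by
      rw [lt_div_iff₀ hK0, div_mul_eq_mul_div, div_mul_eq_mul_div, div_lt_one hκ0]
      linarith
    linarith
  have hae : (fun z : ℝ × ℝ => ‖B z.1 z.2‖ ^ 2) =ᵐ[volume.restrict R] 0 := by
    rw [← setIntegral_eq_zero_iff_of_nonneg_ae]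
    · exact hJz
    · exact Filter.Eventually.of_forall fun z => sq_nonneg _
    · exact intR (fun t y => ‖B t y‖ ^ 2) hB2' T b
  have hcl : R ⊆ closure (interior R) := by
    rw [hR, interior_prod_eq, interior_Icc, interior_Icc, closure_prod_eq, closure_Ioo hT.ne,
      closure_Ioo hb.ne]
  have heq := Measure.eqOn_of_ae_eq hae hB2.continuousOn continuousOn_const hcl
  intro t ht y hy
  have := heq (show (t, y) ∈ R from ⟨ht, hy⟩)
  simpa using this


end Pool.Agent.Helper115.FC
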