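import Pool.Agent.Helper115.FC.Lin

set_option autoImplicit false

open Real MeasureTheory intervalIntegral
open scoped ContDiff

namespace Pool.Agent.Helper115.FC

/-- Fourier coefficient in one variable. -/
noncomputable def FC (κ L : ℝ) (u : ℝ → ℝ) : ℂ :=
  ∫ x in (0 : ℝ)..L, (u x : ℂ) * Complex.exp (-(κ * x : ℝ) * Complex.I)

lemma FC_add {κ L : ℝ} {u v : ℝ → ℝ} (hu : Continuous u) (hv : Continuous v) :
    FC κ L (fun x => u x + v x) = FC κ L u + FC κ L v := by
  unfold FC
  rw [← intervalIntegral.integral_add]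
  · congr 1; funext x; push_cast; ring
  all_goals exact Continuous.intervalIntegrable (by fun_prop) _ _

lemma FC_mul {κ L : ℝ} {u : ℝ → ℝ} (c : ℝ) :
    FC κ L (fun x => c * u x) = c * FC κ L u := by
  unfold FC
  rw [← intervalIntegral.integral_const_mul]
  congr 1; funext x; push_cast; ring

lemma FC_neg {κ L : ℝ} {u : ℝ → ℝ} : FC κ L (fun x => -u x) = -FC κ L u := by
  unfold FC
  rw [← intervalIntegral.integral_neg]
  congr 1; funext x; push_cast; ring

/-- partial derivatives of a `C¹` function of three variables. -/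
lemma hd_t {u : ℝ → ℝ → ℝ → ℝ} (hu : ContDiff ℝ 1 (fun q : ℝ × ℝ × ℝ => u q.1 q.2.1 q.2.2))
    (t x y : ℝ) : HasDerivAt (fun τ => u τ x y) (deriv (fun τ => u τ x y) t) t := by
  have : ContDiff ℝ 1 (fun τ => u τ x y) :=
    hu.comp (contDiff_id.prodMk (contDiff_const (c := (x, y))))
  exact (this.differentiable one_ne_zero t).hasDerivAt

lemma hd_x {u : ℝ → ℝ → ℝ → ℝ} (hu : ContDiff ℝ 1 (fun q : ℝ × ℝ × ℝ => u q.1 q.2.1 q.2.2))
    (t x y : ℝ) : HasDerivAt (fun r => u t r y) (deriv (fun r => u t r y) x) x := by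
  have : ContDiff ℝ 1 (fun r => u t r y) :=
    hu.comp ((contDiff_const (c := t)).prodMk (contDiff_id.prodMk (contDiff_const (c := y))))
  exact (this.differentiable one_ne_zero x).hasDerivAt

lemma hd_y {u : ℝ → ℝ → ℝ → ℝ} (hu : ContDiff ℝ 1 (fun q : ℝ × ℝ × ℝ => u q.1 q.2.1 q.2.2))
    (t x y : ℝ) : HasDerivAt (fun r => u t x r) (deriv (fun r => u t x r) y) y := by
  have : ContDiff ℝ 1 (fun r => u t x r) :=
    hu.comp ((contDiff_const (c := t)).prodMk ((contDiff_const (c := x)).prodMk contDiff_id))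
  exact (this.differentiable one_ne_zero y).hasDerivAt

lemma cont_t {u : ℝ → ℝ → ℝ → ℝ} (hu : ContDiff ℝ 1 (fun q : ℝ × ℝ × ℝ => u q.1 q.2.1 q.2.2)) :
    Continuous fun q : ℝ × ℝ × ℝ => deriv (fun τ => u τ q.2.1 q.2.2) q.1 := by
  have h1 : ∀ q : ℝ × ℝ × ℝ, deriv (fun τ => u τ q.2.1 q.2.2) q.1
      = fderiv ℝ (fun q : ℝ × ℝ × ℝ => u q.1 q.2.1 q.2.2) q (1, 0, 0) := fun q => by
    have h2 := (hu.differentiable one_ne_zero q).hasFDerivAt
    have h3 : HasDerivAt (fun τ : ℝ => (τ, q.2.1, q.2.2)) ((1 : ℝ), (0 : ℝ), (0 : ℝ)) q.1 :=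
      (hasDerivAt_id _).prodMk (hasDerivAt_const _ (q.2.1, q.2.2))
    exact (HasFDerivAt.comp_hasDerivAt (f := fun τ : ℝ => (τ, q.2.1, q.2.2)) q.1 h2 h3).deriv
  simp_rw [h1]
  exact (hu.continuous_fderiv one_ne_zero).clm_apply continuous_const

lemma cont_x {u : ℝ → ℝ → ℝ → ℝ} (hu : ContDiff ℝ 1 (fun q : ℝ × ℝ × ℝ => u q.1 q.2.1 q.2.2)) :
    Continuous fun q : ℝ × ℝ × ℝ => deriv (fun r => u q.1 r q.2.2) q.2.1 := by
  have h1 : ∀ q : ℝ × ℝ × ℝ, deriv (fun r => u q.1 r q.2.2) q.2.1
      = fderiv ℝ (fun q : ℝ × ℝ × ℝ => u q.1 q.2.1 q.2.2) q (0, 1, 0) := fun q => by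
    have h2 := (hu.differentiable one_ne_zero q).hasFDerivAt
    have h3 : HasDerivAt (fun τ : ℝ => (q.1, τ, q.2.2)) ((0 : ℝ), (1 : ℝ), (0 : ℝ)) q.2.1 :=
      (hasDerivAt_const _ _).prodMk ((hasDerivAt_id _).prodMk (hasDerivAt_const _ _))
    exact (HasFDerivAt.comp_hasDerivAt (f := fun τ : ℝ => (q.1, τ, q.2.2)) q.2.1 h2 h3).deriv
  simp_rw [h1]
  exact (hu.continuous_fderiv one_ne_zero).clm_apply continuous_const

lemma cont_y {u : ℝ → ℝ → ℝ → ℝ} (hu : ContDiff ℝ 1 (fun q : ℝ × ℝ × ℝ => u q.1 q.2.1 q.2.2)) :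
    Continuous fun q : ℝ × ℝ × ℝ => deriv (fun r => u q.1 q.2.1 r) q.2.2 := by
  have h1 : ∀ q : ℝ × ℝ × ℝ, deriv (fun r => u q.1 q.2.1 r) q.2.2
      = fderiv ℝ (fun q : ℝ × ℝ × ℝ => u q.1 q.2.1 q.2.2) q (0, 0, 1) := fun q => by
    have h2 := (hu.differentiable one_ne_zero q).hasFDerivAt
    have h3 : HasDerivAt (fun τ : ℝ => (q.1, q.2.1, τ)) ((0 : ℝ), (0 : ℝ), (1 : ℝ)) q.2.2 :=
      (hasDerivAt_const _ _).prodMk ((hasDerivAt_const _ _).prodMk (hasDerivAt_id _))
    exact (HasFDerivAt.comp_hasDerivAt (f := fun τ : ℝ => (q.1, q.2.1, τ)) q.2.2 h2 h3).deriv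
  simp_rw [h1]
  exact (hu.continuous_fderiv one_ne_zero).clm_apply continuous_const

/-- continuity of the Fourier coefficients in the parameters. -/
lemma FC_cont {κ L : ℝ} {u : ℝ → ℝ → ℝ → ℝ}
    (hu : Continuous (fun q : ℝ × ℝ × ℝ => u q.1 q.2.1 q.2.2)) :
    Continuous (Function.uncurry fun t y => FC κ L fun x => u t x y) := by
  have : Continuous fun r : ℝ × ℝ => ∫ x in (0 : ℝ)..L,
      (u r.1 x r.2 : ℂ) * Complex.exp (-(κ * x : ℝ) * Complex.I) := by
    refine continuous_param (G := fun (r : ℝ × ℝ) x =>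
      (u r.1 x r.2 : ℂ) * Complex.exp (-(κ * x : ℝ) * Complex.I)) 0 L ?_
    have h1 : Continuous fun p : (ℝ × ℝ) × ℝ => u p.1.1 p.2 p.1.2 :=
      hu.comp (by fun_prop : Continuous fun p : (ℝ × ℝ) × ℝ => (p.1.1, p.2, p.1.2))
    have h2 : Continuous fun p : (ℝ × ℝ) × ℝ =>
      Complex.exp (-(κ * p.2 : ℝ) * Complex.I) := by fun_prop
    exact (Complex.continuous_ofReal.comp h1).mul h2
  exact this

lemma FC_dt {κ L : ℝ} {u : ℝ → ℝ → ℝ → ℝ}
    (hu : ContDiff ℝ 1 (fun q : ℝ × ℝ × ℝ => u q.1 q.2.1 q.2.2)) (t y : ℝ) :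
    HasDerivAt (fun τ => FC κ L fun x => u τ x y)
      (FC κ L fun x => deriv (fun τ => u τ x y) t) t := by
  refine hasDerivAt_param (G := fun τ x => (u τ x y : ℂ) * Complex.exp (-(κ * x : ℝ) * Complex.I))
    (G' := fun τ x => ((deriv (fun τ => u τ x y) τ : ℝ) : ℂ)
      * Complex.exp (-(κ * x : ℝ) * Complex.I)) 0 L ?_ ?_ ?_ t
  · intro r x
    exact (hd_t hu r x y).ofReal_comp.mul_const _
  · intro r
    have h1 : Continuous fun x => u r x y :=
      hu.continuous.comp (by fun_prop : Continuous fun x : ℝ => (r, x, y))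
    exact (Complex.continuous_ofReal.comp h1).mul (by fun_prop)
  · have h1 : Continuous fun p : ℝ × ℝ => deriv (fun τ => u τ p.2 y) p.1 :=
      (cont_t hu).comp (by fun_prop : Continuous fun p : ℝ × ℝ => (p.1, p.2, y))
    exact (Complex.continuous_ofReal.comp h1).mul
      (by fun_prop : Continuous fun p : ℝ × ℝ => Complex.exp (-(κ * p.2 : ℝ) * Complex.I))

lemma FC_dy {κ L : ℝ} {u : ℝ → ℝ → ℝ → ℝ}
    (hu : ContDiff ℝ 1 (fun q : ℝ × ℝ × ℝ => u q.1 q.2.1 q.2.2)) (t y : ℝ) :
    HasDerivAt (fun r => FC κ L fun x => u t x r)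
      (FC κ L fun x => deriv (fun r => u t x r) y) y := by
  refine hasDerivAt_param (G := fun τ x => (u t x τ : ℂ) * Complex.exp (-(κ * x : ℝ) * Complex.I))
    (G' := fun τ x => ((deriv (fun r => u t x r) τ : ℝ) : ℂ)
      * Complex.exp (-(κ * x : ℝ) * Complex.I)) 0 L ?_ ?_ ?_ y
  · intro r x
    exact (hd_y hu t x r).ofReal_comp.mul_const _
  · intro r
    have h1 : Continuous fun x => u t x r :=
      hu.continuous.comp (by fun_prop : Continuous fun x : ℝ => (t, x, r))
    exact (Complex.continuous_ofReal.comp h1).mul (by fun_prop)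
  · have h1 : Continuous fun p : ℝ × ℝ => deriv (fun r => u t p.2 r) p.1 :=
      (cont_y hu).comp (by fun_prop : Continuous fun p : ℝ × ℝ => (t, p.2, p.1))
    exact (Complex.continuous_ofReal.comp h1).mul
      (by fun_prop : Continuous fun p : ℝ × ℝ => Complex.exp (-(κ * p.2 : ℝ) * Complex.I))

lemma FC_dx {κ L : ℝ} (hκ : Complex.exp (-(κ * L : ℝ) * Complex.I) = 1) {u : ℝ → ℝ → ℝ → ℝ}
    (hu : ContDiff ℝ 1 (fun q : ℝ × ℝ × ℝ => u q.1 q.2.1 q.2.2)) (t y : ℝ)
    (hper : ∀ x, u t (x + L) y = u t x y) :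
    (FC κ L fun x => deriv (fun r => u t r y) x) = Complex.I * κ * FC κ L fun x => u t x y := by
  have hE : ∀ x : ℝ, HasDerivAt (fun x : ℝ => Complex.exp (-(κ * x : ℝ) * Complex.I))
      (-(Complex.I * κ) * Complex.exp (-(κ * x : ℝ) * Complex.I)) x := fun x => by
    have h1 : HasDerivAt (fun x : ℝ => (-(κ * x : ℝ) : ℂ) * Complex.I) (-κ * Complex.I) x := by
      have h0 : HasDerivAt (fun x : ℝ => ((κ * x : ℝ) : ℂ)) (κ : ℂ) x := by
        simpa using ((hasDerivAt_id x).const_mul κ).ofReal_comp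
      exact h0.neg.mul_const Complex.I
    have h2 := h1.cexp
    refine h2.congr_deriv ?_
    ring
  have hd : ∀ x : ℝ, HasDerivAt (fun x : ℝ => (u t x y : ℂ)
      * Complex.exp (-(κ * x : ℝ) * Complex.I))
      ((deriv (fun r => u t r y) x : ℝ) * Complex.exp (-(κ * x : ℝ) * Complex.I)
        - Complex.I * κ * ((u t x y : ℂ) * Complex.exp (-(κ * x : ℝ) * Complex.I))) x := fun x => by
    refine ((hd_x hu t x y).ofReal_comp.mul (hE x)).congr_deriv ?_
    ring
  have c1 : Continuous fun x => u t x y :=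
    hu.continuous.comp (by fun_prop : Continuous fun x : ℝ => (t, x, y))
  have c2 : Continuous fun x => deriv (fun r => u t r y) x :=
    (cont_x hu).comp (by fun_prop : Continuous fun x : ℝ => (t, x, y))
  have i1 : IntervalIntegrable (fun x : ℝ => ((deriv (fun r => u t r y) x : ℝ) : ℂ)
      * Complex.exp (-(κ * x : ℝ) * Complex.I)) volume 0 L :=
    Continuous.intervalIntegrable
      ((Complex.continuous_ofReal.comp c2).mul (by fun_prop)) _ _
  have i2 : IntervalIntegrable (fun x : ℝ => Complex.I * κ * ((u t x y : ℂ)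
      * Complex.exp (-(κ * x : ℝ) * Complex.I))) volume 0 L :=
    Continuous.intervalIntegrable (continuous_const.mul
      ((Complex.continuous_ofReal.comp c1).mul (by fun_prop))) _ _
  have := integral_eq_sub_of_hasDerivAt (fun x _ => hd x) (i1.sub i2)
  rw [intervalIntegral.integral_sub i1 i2, intervalIntegral.integral_const_mul] at this
  have e : (u t L y : ℂ) * Complex.exp (-(κ * L : ℝ) * Complex.I)
      - (u t 0 y : ℂ) * Complex.exp (-(κ * (0 : ℝ) : ℝ) * Complex.I) = 0 := by
    rw [hκ]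
    have := hper 0
    rw [zero_add] at this
    rw [this]; simp
  rw [e] at this
  exact sub_eq_zero.1 this

/-- The equations satisfied by one Fourier coefficient (in `x`) of the linearised system. -/
structure ModeSys (κ : ℝ) (A B C S At Bt Ct St By Sy : ℝ → ℝ → ℂ) : Prop where
  cA : Continuous (Function.uncurry A)
  cB : Continuous (Function.uncurry B)
  cC : Continuous (Function.uncurry C)
  cS : Continuous (Function.uncurry S)
  cAt : Continuous (Function.uncurry At)
  cBt : Continuous (Function.uncurry Bt)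
  cCt : Continuous (Function.uncurry Ct)
  cSt : Continuous (Function.uncurry St)
  cBy : Continuous (Function.uncurry By)
  cSy : Continuous (Function.uncurry Sy)
  dA : ∀ t y, HasDerivAt (fun τ => A τ y) (At t y) t
  dB : ∀ t y, HasDerivAt (fun τ => B τ y) (Bt t y) t
  dC : ∀ t y, HasDerivAt (fun τ => C τ y) (Ct t y) t
  dS : ∀ t y, HasDerivAt (fun τ => S τ y) (St t y) t
  dyB : ∀ t y, HasDerivAt (fun r => B t r) (By t y) y
  dyS : ∀ t y, HasDerivAt (fun r => S t r) (Sy t y) y
  perB : ∀ t, B t (2 * π) = B t 0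
  perS : ∀ t, S t (2 * π) = S t 0
  e12 : ∀ t, ∃ Q Qy : ℝ → ℂ, (∀ y, HasDerivAt Q (Qy y) y) ∧ Q (2 * π) = Q 0 ∧
    (∀ y, (mm y : ℂ) * (At t y + Complex.I * κ * ff y * A t y) + p1 y * B t y
      = -(Complex.I * κ * Q y)) ∧
    (∀ y, ((1 / mm y : ℝ) : ℂ) * (Bt t y + Complex.I * κ * ff y * B t y)
      - dm y * ff y * A t y = -Qy y)
  e3 : ∀ t y, Complex.I * κ * A t y + By t y = 0
  e4 : ∀ t y, Ct t y + Complex.I * κ * ff y * C t y - df y * S t y = A t y
  e5 : ∀ t y, St t y + Complex.I * κ * ff y * S t y = B t y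
  e6 : ∀ t y, Complex.I * κ * C t y + Sy t y = 0

theorem modeSys_of_linSys {L κ : ℝ} {w0 w1 z0 z1 : ℝ → ℝ → ℝ → ℝ}
    (hκ : Complex.exp (-(κ * L : ℝ) * Complex.I) = 1) (h : LinSys L w0 w1 z0 z1) :
    ModeSys κ (fun t y => FC κ L fun x => w0 t x y) (fun t y => FC κ L fun x => w1 t x y)
      (fun t y => FC κ L fun x => z0 t x y) (fun t y => FC κ L fun x => z1 t x y)
      (fun t y => FC κ L fun x => deriv (fun τ => w0 τ x y) t)
      (fun t y => FC κ L fun x => deriv (fun τ => w1 τ x y) t)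
      (fun t y => FC κ L fun x => deriv (fun τ => z0 τ x y) t)
      (fun t y => FC κ L fun x => deriv (fun τ => z1 τ x y) t)
      (fun t y => FC κ L fun x => deriv (fun r => w1 t x r) y)
      (fun t y => FC κ L fun x => deriv (fun r => z1 t x r) y) where
  cA := FC_cont h.cw0.continuous
  cB := FC_cont h.cw1.continuous
  cC := FC_cont h.cz0.continuous
  cS := FC_cont h.cz1.continuous
  cAt := FC_cont (cont_t h.cw0)
  cBt := FC_cont (cont_t h.cw1)
  cCt := FC_cont (cont_t h.cz0)
  cSt := FC_cont (cont_t h.cz1)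
  cBy := FC_cont (cont_y h.cw1)
  cSy := FC_cont (cont_y h.cz1)
  dA := FC_dt h.cw0
  dB := FC_dt h.cw1
  dC := FC_dt h.cz0
  dS := FC_dt h.cz1
  dyB := FC_dy h.cw1
  dyS := FC_dy h.cz1
  perB := fun t => by
    congr 1; funext x
    have := (h.pw1 t x 0).2
    rwa [zero_add] at this
  perS := fun t => by
    congr 1; funext x
    have := (h.pz1 t x 0).2
    rwa [zero_add] at this
  e12 := fun t => by
    obtain ⟨q, hq, hp, he⟩ := h.eul t
    have hq' : ContDiff ℝ 1 (fun p : ℝ × ℝ × ℝ => (fun (_ : ℝ) x y => q x y) p.1 p.2.1 p.2.2) :=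
      hq.comp contDiff_snd
    refine ⟨fun y => FC κ L fun x => q x y, fun y => FC κ L fun x => deriv (fun r => q x r) y,
      fun y => FC_dy (u := fun _ x y => q x y) hq' t y, ?_, fun y => ?_, fun y => ?_⟩
    · change (FC κ L fun x => q x (2 * π)) = FC κ L fun x => q x 0
      congr 1; funext x
      have := (hp x 0).2
      rwa [zero_add] at this
    · have c1 : Continuous fun x => deriv (fun τ => w0 τ x y) t :=
        (cont_t h.cw0).comp (by fun_prop : Continuous fun x : ℝ => (t, x, y))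
      have c2 : Continuous fun x => deriv (fun r => w0 t r y) x :=
        (cont_x h.cw0).comp (by fun_prop : Continuous fun x : ℝ => (t, x, y))
      have c3 : Continuous fun x => w1 t x y :=
        h.cw1.continuous.comp (by fun_prop : Continuous fun x : ℝ => (t, x, y))
      have e1 : (FC κ L fun x => mm y * (deriv (fun τ => w0 τ x y) t
          + ff y * deriv (fun r => w0 t r y) x) + p1 y * w1 t x y)
          = FC κ L fun x => -deriv (fun r => q r y) x := by
        congr 1; funext x; exact (he x y).1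
      rw [FC_add (by fun_prop) (by fun_prop), FC_mul, FC_add c1 (by fun_prop), FC_mul, FC_mul,
        FC_neg, FC_dx hκ h.cw0 t y (fun x => (h.pw0 t x y).1),
        FC_dx (u := fun _ x y => q x y) hκ hq' t y (fun x => (hp x y).1)] at e1
      linear_combination e1
    · have c1 : Continuous fun x => deriv (fun τ => w1 τ x y) t :=
        (cont_t h.cw1).comp (by fun_prop : Continuous fun x : ℝ => (t, x, y))
      have c2 : Continuous fun x => deriv (fun r => w1 t r y) x :=
        (cont_x h.cw1).comp (by fun_prop : Continuous fun x : ℝ => (t, x, y))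
      have c3 : Continuous fun x => w0 t x y :=
        h.cw0.continuous.comp (by fun_prop : Continuous fun x : ℝ => (t, x, y))
      have e1 : (FC κ L fun x => (mm y)⁻¹ * (deriv (fun τ => w1 τ x y) t
          + ff y * deriv (fun r => w1 t r y) x) + (-(dm y * ff y)) * w0 t x y)
          = FC κ L fun x => -deriv (fun r => q x r) y := by
        congr 1; funext x
        have := (he x y).2
        linarith
      rw [FC_add (by fun_prop) (by fun_prop), FC_mul, FC_add c1 (by fun_prop), FC_mul, FC_mul,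
        FC_neg, FC_dx hκ h.cw1 t y (fun x => (h.pw1 t x y).1)] at e1
      push_cast at e1 ⊢
      rw [one_div]
      linear_combination e1
  e3 := fun t y => by
    have c1 : Continuous fun x => deriv (fun r => w0 t r y) x :=
      (cont_x h.cw0).comp (by fun_prop : Continuous fun x : ℝ => (t, x, y))
    have c2 : Continuous fun x => deriv (fun r => w1 t x r) y :=
      (cont_y h.cw1).comp (by fun_prop : Continuous fun x : ℝ => (t, x, y))
    rw [← FC_dx hκ h.cw0 t y (fun x => (h.pw0 t x y).1), ← FC_add c1 c2]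
    simp [h.dw, FC]
  e4 := fun t y => by
    have c1 : Continuous fun x => deriv (fun τ => z0 τ x y) t :=
      (cont_t h.cz0).comp (by fun_prop : Continuous fun x : ℝ => (t, x, y))
    have c2 : Continuous fun x => deriv (fun r => z0 t r y) x :=
      (cont_x h.cz0).comp (by fun_prop : Continuous fun x : ℝ => (t, x, y))
    have c3 : Continuous fun x => z1 t x y :=
      h.cz1.continuous.comp (by fun_prop : Continuous fun x : ℝ => (t, x, y))
    have e1 : (FC κ L fun x => (deriv (fun τ => z0 τ x y) t + ff y * deriv (fun r => z0 t r y) x)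
        + (-df y) * z1 t x y) = FC κ L fun x => w0 t x y := by
      congr 1; funext x
      have := h.flow0 t x y
      linarith
    rw [FC_add (by fun_prop) (by fun_prop), FC_add c1 (by fun_prop), FC_mul, FC_mul,
      FC_dx hκ h.cz0 t y (fun x => (h.pz0 t x y).1)] at e1
    push_cast at e1
    linear_combination e1
  e5 := fun t y => by
    have c1 : Continuous fun x => deriv (fun τ => z1 τ x y) t :=
      (cont_t h.cz1).comp (by fun_prop : Continuous fun x : ℝ => (t, x, y))
    have c2 : Continuous fun x => deriv (fun r => z1 t r y) x :=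
      (cont_x h.cz1).comp (by fun_prop : Continuous fun x : ℝ => (t, x, y))
    have e1 : (FC κ L fun x => deriv (fun τ => z1 τ x y) t + ff y * deriv (fun r => z1 t r y) x)
        = FC κ L fun x => w1 t x y := by
      congr 1; funext x
      exact h.flow1 t x y
    rw [FC_add c1 (by fun_prop), FC_mul, FC_dx hκ h.cz1 t y (fun x => (h.pz1 t x y).1)] at e1
    linear_combination e1
  e6 := fun t y => by
    have c1 : Continuous fun x => deriv (fun r => z0 t r y) x :=
      (cont_x h.cz0).comp (by fun_prop : Continuous fun x : ℝ => (t, x, y))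
    have c2 : Continuous fun x => deriv (fun r => z1 t x r) y :=
      (cont_y h.cz1).comp (by fun_prop : Continuous fun x : ℝ => (t, x, y))
    rw [← FC_dx hκ h.cz0 t y (fun x => (h.pz0 t x y).1), ← FC_add c1 c2]
    simp [h.dz, FC]

end Pool.Agent.Helper115.FC
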