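import Mathlib

set_option autoImplicit false

open Real MeasureTheory intervalIntegral Set

namespace Pool.Agent.Helper115.FC

/-- Solutions of `σ'' = -ν² σ + e`. -/
theorem osc_solution {ν e : ℝ} (hν : 0 < ν) {σ β : ℝ → ℝ} (hσ : ∀ t, HasDerivAt σ (β t) t)
    (hβ : ∀ t, HasDerivAt β (-ν ^ 2 * σ t + e) t) (h0 : σ 0 = 0) (t : ℝ) :
    σ t = e / ν ^ 2 * (1 - cos (ν * t)) + β 0 / ν * sin (ν * t) := by
  have hs : ∀ t, HasDerivAt (fun t => sin (ν * t)) (ν * cos (ν * t)) t := fun t => by
    have := ((hasDerivAt_id t).const_mul ν).sin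
    refine this.congr_deriv ?_
    simp; ring
  have hc : ∀ t, HasDerivAt (fun t => cos (ν * t)) (-(ν * sin (ν * t))) t := fun t => by
    have := ((hasDerivAt_id t).const_mul ν).cos
    refine this.congr_deriv ?_
    simp; ring
  set u : ℝ → ℝ := fun t => σ t - (e / ν ^ 2 * (1 - cos (ν * t)) + β 0 / ν * sin (ν * t)) with hu
  set u' : ℝ → ℝ := fun t => β t - (e / ν * sin (ν * t) + β 0 * cos (ν * t)) with hu'
  have du : ∀ t, HasDerivAt u (u' t) t := fun t => by
    have := (hσ t).sub ((((hc t).const_sub 1).const_mul (e / ν ^ 2)).add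
      ((hs t).const_mul (β 0 / ν)))
    refine this.congr_deriv ?_
    simp only [hu']; field_simp
  have du' : ∀ t, HasDerivAt u' (-ν ^ 2 * u t) t := fun t => by
    have := (hβ t).sub (((hs t).const_mul (e / ν)).add ((hc t).const_mul (β 0)))
    refine this.congr_deriv ?_
    simp only [hu]; field_simp; ring
  have dE : ∀ t, HasDerivAt (fun t => u' t ^ 2 + ν ^ 2 * u t ^ 2) 0 t := fun t => by
    have := ((du' t).pow 2).add (((du t).pow 2).const_mul (ν ^ 2))
    refine this.congr_deriv ?_
    simp; ring
  have hE : ∀ t, u' t ^ 2 + ν ^ 2 * u t ^ 2 = u' 0 ^ 2 + ν ^ 2 * u 0 ^ 2 := fun t =>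
    is_const_of_deriv_eq_zero (fun t => (dE t).differentiableAt) (fun t => (dE t).deriv) t 0
  have h1 : u 0 = 0 := by simp [hu, h0]
  have h2 : u' 0 = 0 := by simp [hu']
  have h3 := hE t
  rw [h1, h2] at h3
  have h4 : ν ^ 2 * u t ^ 2 = 0 := by
    have a1 := sq_nonneg (u' t)
    have a2 := mul_nonneg (sq_nonneg ν) (sq_nonneg (u t))
    linarith
  have h5 : u t = 0 := by
    rcases mul_eq_zero.1 h4 with h | h
    · exact absurd h (pow_pos hν 2).ne'
    · exact (pow_eq_zero_iff two_ne_zero).1 h
  simp only [hu] at h5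
  linarith

theorem zero_mode (m f dm df p1 : ℝ → ℝ) (hmc : Continuous m) (hfc : Continuous f)
    (hdm : Continuous dm) (hdf : Continuous df)
    (hp : ∀ y, p1 y = dm y * f y + m y * df y) (hm0 : ∀ y, 0 < m y) (b : ℝ) (hb : 0 < b)
    (A0 κ0 B0 D0 ν T : ℝ) (hA0 : A0 = ∫ y in (0 : ℝ)..b, 1 / m y)
    (hκ0 : κ0 = ∫ y in (0 : ℝ)..b, dm y * f y * p1 y / m y)
    (hB0 : B0 = ∫ y in (0 : ℝ)..b, (dm y * f y) ^ 2 / m y)
    (hD0 : 0 < D0) (hBD : B0 = κ0 + D0) (hκpos : 0 < κ0)
    (hν : 0 < ν) (hν2 : ν ^ 2 = κ0 / A0) (hT : 0 < T) (hνT : ν * T ≤ 2 * π)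
    (α αt γ : ℝ → ℝ → ℝ) (β βt σ : ℝ → ℝ)
    (hα : ∀ t y, HasDerivAt (fun τ => α τ y) (αt t y) t) (hαc : ∀ t, Continuous (α t))
    (h1 : ∀ t y, m y * αt t y + p1 y * β t = 0)
    (hσ : ∀ t, HasDerivAt σ (β t) t) (hβ : ∀ t, HasDerivAt β (βt t) t)
    (h2 : ∀ t, A0 * βt t = ∫ y in (0 : ℝ)..b, dm y * f y * α t y)
    (h4 : ∀ t y, HasDerivAt (fun τ => γ τ y) (α t y + df y * σ t) t)
    (hγ0 : ∀ y, γ 0 y = 0) (hγT : ∀ y, γ T y = 0) (hσ0 : σ 0 = 0) (hσT : σ T = 0) :
    (∀ y, α 0 y = 0) ∧ (ν * T < 2 * π → β 0 = 0) := by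
  have hmi : Continuous fun y => 1 / m y := continuous_const.div hmc fun y => (hm0 y).ne'
  have hA0pos : 0 < A0 := by
    rw [hA0]
    exact intervalIntegral_pos_of_pos (hmi.intervalIntegrable _ _)
      (fun y => div_pos one_pos (hm0 y)) hb
  have hp1c : Continuous p1 := by
    have : p1 = fun y => dm y * f y + m y * df y := funext hp
    rw [this]; fun_prop
  have hσc : Continuous σ := continuous_iff_continuousAt.2 fun t => (hσ t).continuousAt
  set I := ∫ t in (0 : ℝ)..T, σ t with hI
  -- α in terms of σ
  have hαeq : ∀ t y, α t y = α 0 y - p1 y / m y * σ t := fun t y => by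
    have hd : ∀ t, HasDerivAt (fun t => α t y + p1 y / m y * σ t) 0 t := fun t => by
      refine ((hα t y).add ((hσ t).const_mul (p1 y / m y))).congr_deriv ?_
      have := h1 t y
      have hm := (hm0 y).ne'
      field_simp
      linarith
    have := is_const_of_deriv_eq_zero (fun t => (hd t).differentiableAt) (fun t => (hd t).deriv) t 0
    rw [hσ0] at this
    linarith
  have hα0 : ∀ y, T * α 0 y = I * (dm y * f y / m y) := fun y => by
    have hc : Continuous fun t => α t y + df y * σ t := by
      have : (fun t => α t y + df y * σ t) = fun t => α 0 y - p1 y / m y * σ t + df y * σ t := by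
        funext t; rw [hαeq t y]
      rw [this]; fun_prop
    have := integral_eq_sub_of_hasDerivAt (fun t _ => h4 t y) (hc.intervalIntegrable 0 T)
    rw [hγ0, hγT, sub_zero] at this
    have e : ∀ t, α t y + df y * σ t = α 0 y - (dm y * f y / m y) * σ t := fun t => by
      rw [hαeq t y, hp y]
      have hm := (hm0 y).ne'
      field_simp
      ring
    simp_rw [e] at this
    rw [intervalIntegral.integral_sub (by simp) ((hσc.intervalIntegrable _ _).const_mul _),
      intervalIntegral.integral_const, intervalIntegral.integral_const_mul] at this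
    simp only [sub_zero, smul_eq_mul] at this
    linarith
  have hα0' : ∀ y, α 0 y = I / T * (dm y * f y / m y) := fun y => by
    have := hα0 y
    field_simp
    field_simp at this
    linarith
  set e := I / T * B0 / A0 with he
  have hβeq : ∀ t, βt t = -ν ^ 2 * σ t + e := fun t => by
    have h := h2 t
    have e1 : ∀ y, dm y * f y * α t y = I / T * ((dm y * f y) ^ 2 / m y)
        - σ t * (dm y * f y * p1 y / m y) := fun y => by
      rw [hαeq t y, hα0' y]; ring
    simp_rw [e1] at h
    have i1 : IntervalIntegrable (fun y => (dm y * f y) ^ 2 / m y) volume 0 b :=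
      Continuous.intervalIntegrable (((hdm.mul hfc).pow 2).div hmc fun y => (hm0 y).ne') _ _
    have i2 : IntervalIntegrable (fun y => dm y * f y * p1 y / m y) volume 0 b :=
      Continuous.intervalIntegrable (((hdm.mul hfc).mul hp1c).div hmc fun y => (hm0 y).ne') _ _
    rw [intervalIntegral.integral_sub (i1.const_mul _) (i2.const_mul _),
      intervalIntegral.integral_const_mul, intervalIntegral.integral_const_mul, ← hB0, ← hκ0] at h
    rw [hν2, he]
    field_simp
    field_simp at h
    linarith
  have hσsol := fun t => osc_solution (ν := ν) (e := e) hν hσ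
    (fun t => by have := hβ t; rwa [hβeq t] at this) hσ0 t
  set E := e / ν ^ 2 with hE
  set c := β 0 / ν with hc
  have hs : ∀ t, HasDerivAt (fun t => sin (ν * t)) (ν * cos (ν * t)) t := fun t => by
    have := ((hasDerivAt_id t).const_mul ν).sin
    refine this.congr_deriv ?_
    simp; ring
  have hcs : ∀ t, HasDerivAt (fun t => cos (ν * t)) (-(ν * sin (ν * t))) t := fun t => by
    have := ((hasDerivAt_id t).const_mul ν).cos
    refine this.congr_deriv ?_
    simp; ring
  -- the integral of σ
  have hIeq : I = E * (T - sin (ν * T) / ν) + c * ((1 - cos (ν * T)) / ν) := by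
    have hd : ∀ t ∈ uIcc 0 T, HasDerivAt
        (fun t => E * (t - sin (ν * t) / ν) - c * (cos (ν * t) / ν)) (σ t) t := fun t _ => by
      have := (((hasDerivAt_id t).sub ((hs t).div_const ν)).const_mul E).sub
        (((hcs t).div_const ν).const_mul c)
      refine this.congr_deriv ?_
      rw [hσsol t]
      field_simp
      ring
    rw [hI, integral_eq_sub_of_hasDerivAt hd (hσc.intervalIntegrable _ _)]
    simp
    ring
  have hB0pos : 0 < B0 := by rw [hBD]; linarith
  have hν2pos : 0 < ν ^ 2 := pow_pos hν 2
  -- I in terms of E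
  have hIE : I * B0 = E * T * κ0 := by
    have h3 : e = E * ν ^ 2 := by rw [hE]; field_simp
    have h4 : I / T * B0 / A0 = E * (κ0 / A0) := by rw [← he, h3, hν2]
    field_simp at h4
    linarith
  set x := ν * T with hx
  have hxpos : 0 < x := mul_pos hν hT
  have heq1 : E * (1 - cos x) + c * sin x = 0 := by rw [← hσsol T, hσT]
  have heq2 : E * (D0 * x - B0 * sin x) + c * B0 * (1 - cos x) = 0 := by
    have h5 : B0 * (ν * I) = B0 * (E * (x - sin x) + c * (1 - cos x)) := by
      rw [hIeq, hx]; field_simp
    have h6 : B0 * (ν * I) = E * x * κ0 := by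
      rw [show B0 * (ν * I) = ν * (I * B0) by ring, hIE, hx]; ring
    have h7 : κ0 = B0 - D0 := by linarith
    rw [h7] at h6
    linarith
  -- half angle
  set y := x / 2 with hy
  have hxy : x = 2 * y := by rw [hy]; ring
  have hsx : sin x = 2 * sin y * cos y := by rw [hxy, sin_two_mul]
  have hcx : 1 - cos x = 2 * sin y ^ 2 := by
    rw [hxy, cos_two_mul]; have := sin_sq_add_cos_sq y; linarith
  have hypos : 0 < y := by rw [hy]; linarith
  have hmain : E = 0 ∧ (ν * T < 2 * π → c = 0) := by
    rcases lt_or_eq_of_le hνT with hlt | heq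
    · have hyπ : y < π := by rw [hy]; linarith
      have hsy : 0 < sin y := sin_pos_of_pos_of_lt_pi hypos hyπ
      have g1 : E * sin y + c * cos y = 0 := by
        rw [hcx, hsx] at heq1
        have : (2 * sin y) * (E * sin y + c * cos y) = 0 := by linarith
        rcases mul_eq_zero.1 this with h | h
        · linarith
        · exact h
      have g2 : E * (D0 * y - B0 * sin y * cos y) + c * B0 * sin y ^ 2 = 0 := by
        rw [hcx, hsx, hxy] at heq2
        linarith
      have g3 : E * (D0 * y * cos y - B0 * sin y) = 0 := by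
        have h8 : c * cos y = -(E * sin y) := by linarith
        have h9 : (E * (D0 * y - B0 * sin y * cos y) + c * B0 * sin y ^ 2) * cos y = 0 := by
          rw [g2, zero_mul]
        have h10 : sin y ^ 2 = 1 - cos y ^ 2 := by have := sin_sq_add_cos_sq y; linarith
        have h11 : E * (D0 * y * cos y - B0 * sin y * cos y ^ 2)
            + (c * cos y) * B0 * sin y ^ 2 = 0 := by linarith
        rw [h8] at h11
        have h12 : E * (D0 * y * cos y - B0 * sin y * (cos y ^ 2 + sin y ^ 2)) = 0 := by
          linarith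
        rwa [add_comm (cos y ^ 2), sin_sq_add_cos_sq, mul_one] at h12
      have g4 : D0 * y * cos y < B0 * sin y := by
        rcases le_or_gt (cos y) 0 with hcy | hcy
        · have : D0 * y * cos y ≤ 0 := mul_nonpos_of_nonneg_of_nonpos (by positivity) hcy
          have : 0 < B0 * sin y := by positivity
          linarith
        · have hy2 : y < π / 2 := by
            by_contra hcon
            rw [not_lt] at hcon
            have := cos_nonpos_of_pi_div_two_le_of_le hcon (by linarith)
            linarith
          have htan := lt_tan hypos hy2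
          rw [tan_eq_sin_div_cos, lt_div_iff₀ hcy] at htan
          have : D0 < B0 := by linarith
          calc D0 * y * cos y = D0 * (y * cos y) := by ring
            _ < B0 * (y * cos y) := by
                exact mul_lt_mul_of_pos_right this (mul_pos hypos hcy)
            _ ≤ B0 * sin y := by
                exact (mul_le_mul_of_nonneg_left htan.le hB0pos.le)
      have hE0 : E = 0 := by
        rcases mul_eq_zero.1 g3 with h | h
        · exact h
        · linarith
      refine ⟨hE0, fun _ => ?_⟩
      rw [hE0, zero_mul, zero_add] at g2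
      have : 0 < B0 * sin y ^ 2 := by positivity
      rcases mul_eq_zero.1 (show c * (B0 * sin y ^ 2) = 0 by linarith) with h | h
      · exact h
      · linarith
    · have hxx : x = 2 * π := heq
      refine ⟨?_, fun h => absurd h (by rw [← hx, heq]; exact lt_irrefl _)⟩
      rw [hxx] at heq2
      simp at heq2
      rcases heq2 with h | h
      · exact h
      · exact absurd h hD0.ne'
  have hI0 : I = 0 := by
    have h := hIE
    rw [hmain.1] at h
    simp at h
    rcases h with h | h
    · exact h
    · exact absurd h hB0pos.ne'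
  refine ⟨fun y => by rw [hα0' y, hI0]; simp, fun h => ?_⟩
  have := hmain.2 h
  rw [hc] at this
  rcases div_eq_zero_iff.1 this with h | h
  · exact h
  · exact absurd h hν.ne'

end Pool.Agent.Helper115.FC
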