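import Pool.Agent.Helper115.FC.Sol
import Pool.Agent.Helper115.FC.Tr
import Pool.Agent.Helper115.FC.Mode
import Pool.Agent.Helper115.FC.Zero
import Pool.Agent.Helper115.FC.Const
import Pool.Agent.Helper115.FC.Hs

set_option autoImplicit false

open Real MeasureTheory intervalIntegral
open scoped ContDiff

namespace Pool.Agent.Helper115.FC

/-- The time of the first conjugate point. -/
noncomputable def T1 : ℝ := 2 * π / nu
/-- The length of the thin circle. -/
noncomputable def L1 : ℝ := 2 * π / (168 * T1 + 1)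

lemma T1_pos : 0 < T1 := div_pos (by positivity) nu_pos
lemma L1_pos : 0 < L1 := div_pos (by positivity) (by have := T1_pos; linarith)

lemma exp_one (L : ℝ) (hL : 0 < L) (k : ℤ) :
    Complex.exp (-((2 * π * k / L) * L : ℝ) * Complex.I) = 1 := by
  rw [Complex.exp_eq_one_iff]
  refine ⟨-k, ?_⟩
  have : (L : ℂ) ≠ 0 := by exact_mod_cast hL.ne'
  push_cast
  field_simp

theorem uniq {T : ℝ} (hT : 0 < T) (hνT : nu * T ≤ 2 * π) {w0 w1 z0 z1 : ℝ → ℝ → ℝ → ℝ}
    (h : LinSys L1 w0 w1 z0 z1) (h00 : ∀ x y, z0 0 x y = 0) (h01 : ∀ x y, z1 0 x y = 0)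
    (hT0 : ∀ x y, z0 T x y = 0) (hT1 : ∀ x y, z1 T x y = 0) :
    (∀ x y, w0 0 x y = 0) ∧
      ∃ c, (∀ x y, w1 0 x y = c) ∧ (nu * T < 2 * π → c = 0) := by
  have hTT : T ≤ T1 := by
    rw [T1, le_div_iff₀ nu_pos]; linarith
  -- nonzero modes
  have hmode : ∀ k : ℤ, k ≠ 0 → (∀ y, FC (2 * π * k / L1) L1 (fun x => w1 0 x y) = 0) ∧
      (∀ y, FC (2 * π * k / L1) L1 (fun x => w0 0 x y) = 0) := by
    intro k hk
    have M := modeSys_of_linSys (κ := 2 * π * k / L1) (exp_one L1 L1_pos k) h
    choose Q Qy hQ hQp hq1 hq2 using M.e12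
    have hκ : 4 * 42 * T < |2 * π * k / L1| := by
      have h1 : |2 * π * k / L1| = |(k : ℝ)| * (168 * T1 + 1) := by
        have h2 : (0 : ℝ) < 168 * T1 + 1 := by have := T1_pos; linarith
        rw [L1, show 2 * π * (k : ℝ) / (2 * π / (168 * T1 + 1)) = k * (168 * T1 + 1) by
          field_simp, abs_mul, abs_of_pos h2]
      have h3 : (1 : ℝ) ≤ |(k : ℝ)| := by
        have := Int.one_le_abs hk
        exact_mod_cast this
      rw [h1]
      have := T1_pos
      nlinarith
    have B0 := mode_zero mm ff dm df p1 p2 continuous_mm continuous_ff continuous_dm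
      continuous_df continuous_p2 hasDerivAt_p1 p1_eq mm_pos 4 42 T (2 * π * k / L1) mm_le
      abs_p2_le hT hκ (2 * π) (by positivity) (by simp [p1]) _ _ _ _ Q _ _ _ _ _ _ Qy
      M.cA M.cB M.cC M.cS M.cAt M.cBt M.cCt M.cSt M.cBy M.cSy M.dA M.dB M.dC M.dS M.dyB M.dyS
      hQ M.perB M.perS hQp hq1 hq2 M.e3 M.e4 M.e5 M.e6
      (fun y => by simp [h01, FC]) (fun y => by simp [hT1, FC])
      (fun y => by simp [h00, FC]) (fun y => by simp [hT0, FC])
    have hB : ∀ y, FC (2 * π * k / L1) L1 (fun x => w1 0 x y) = 0 := by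
      intro y
      have hper : Function.Periodic (fun y => FC (2 * π * k / L1) L1 (fun x => w1 0 x y))
          (2 * π) := fun y => by
        simp only [(h.pw1 0 _ y).2]
      obtain ⟨y', hy', he⟩ := hper.exists_mem_Ico₀ (by positivity) y
      rw [he]
      exact B0 0 ⟨le_rfl, hT.le⟩ y' ⟨hy'.1, hy'.2.le⟩
    refine ⟨hB, fun y => ?_⟩
    have h1 := M.dyB 0 y
    simp only [hB] at h1
    have h2 := h1.unique (hasDerivAt_const y (0 : ℂ))
    have h3 := M.e3 0 y
    rw [h2, add_zero] at h3
    have hκ0 : ((2 * π * k / L1 : ℝ) : ℂ) ≠ 0 := by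
      have : (2 * π * k / L1 : ℝ) ≠ 0 := by
        intro h0
        rw [h0, abs_zero] at hκ
        linarith
      exact_mod_cast this
    exact (mul_eq_zero.1 h3).resolve_left (mul_ne_zero Complex.I_ne_zero hκ0)
  have c0 : ∀ y, Continuous fun x => w0 0 x y := fun y =>
    h.cw0.continuous.comp (by fun_prop : Continuous fun x : ℝ => ((0 : ℝ), x, y))
  have c1 : ∀ y, Continuous fun x => w1 0 x y := fun y =>
    h.cw1.continuous.comp (by fun_prop : Continuous fun x : ℝ => ((0 : ℝ), x, y))
  have hw0 : ∀ x y, w0 0 x y = (1 / L1) * ∫ r in (0 : ℝ)..L1, w0 0 r y := fun x y =>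
    const_of_fourier L1_pos (c0 y) (fun x => (h.pw0 0 x y).1) (fun k hk => (hmode k hk).2 y) x
  have hw1 : ∀ x y, w1 0 x y = (1 / L1) * ∫ r in (0 : ℝ)..L1, w1 0 r y := fun x y =>
    const_of_fourier L1_pos (c1 y) (fun x => (h.pw1 0 x y).1) (fun k hk => (hmode k hk).1 y) x
  -- the zero mode
  have hE0 : Complex.exp (-(0 * L1 : ℝ) * Complex.I) = 1 := by simp
  have M := modeSys_of_linSys (κ := 0) hE0 h
  choose Q Qy hQ hQp hq1 hq2 using M.e12
  have FC0 : ∀ u : ℝ → ℝ, FC 0 L1 u = ((∫ x in (0 : ℝ)..L1, u x : ℝ) : ℂ) := by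
    intro u
    unfold FC
    rw [← intervalIntegral.integral_ofReal]
    simp
  have hre : ∀ {F : ℝ → ℂ} {F' : ℂ} {t : ℝ}, HasDerivAt F F' t →
      HasDerivAt (fun t => (F t).re) F'.re t := by
    intro F F' t hF
    exact Complex.reCLM.hasFDerivAt.comp_hasDerivAt t hF
  have hBy : ∀ t y, HasDerivAt (fun r => FC 0 L1 fun x => w1 t x r) 0 y := fun t y => by
    have h1 := M.dyB t y
    have h2 := M.e3 t y
    simp only [Complex.ofReal_zero, mul_zero, zero_mul, zero_add] at h2
    rwa [h2] at h1
  have hSy : ∀ t y, HasDerivAt (fun r => FC 0 L1 fun x => z1 t x r) 0 y := fun t y => by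
    have h1 := M.dyS t y
    have h2 := M.e6 t y
    simp only [Complex.ofReal_zero, mul_zero, zero_mul, zero_add] at h2
    rwa [h2] at h1
  have hBc : ∀ t y, (FC 0 L1 fun x => w1 t x y) = FC 0 L1 fun x => w1 t x 0 := fun t y =>
    is_const_of_deriv_eq_zero (fun y => (hBy t y).differentiableAt) (fun y => (hBy t y).deriv) y 0
  have hSc : ∀ t y, (FC 0 L1 fun x => z1 t x y) = FC 0 L1 fun x => z1 t x 0 := fun t y =>
    is_const_of_deriv_eq_zero (fun y => (hSy t y).differentiableAt) (fun y => (hSy t y).deriv) y 0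
  have hBtc : ∀ t y, (FC 0 L1 fun x => deriv (fun τ => w1 τ x y) t)
      = FC 0 L1 fun x => deriv (fun τ => w1 τ x 0) t := fun t y => by
    have h1 := M.dB t y
    have h2 := M.dB t 0
    simp only [hBc _ y] at h1
    exact h1.unique h2
  have key := zero_mode mm ff dm df p1 continuous_mm continuous_ff continuous_dm continuous_df
    p1_eq mm_pos (2 * π) (by positivity) A0 K0 B0 (21 * π / 4) nu T rfl rfl rfl
    (by positivity) (by rw [B0_eq, K0_eq]; ring) K0_pos nu_pos nu_sq hT hνT
    (fun t y => (FC 0 L1 fun x => w0 t x y).re)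
    (fun t y => (FC 0 L1 fun x => deriv (fun τ => w0 τ x y) t).re)
    (fun t y => (FC 0 L1 fun x => z0 t x y).re)
    (fun t => (FC 0 L1 fun x => w1 t x 0).re)
    (fun t => (FC 0 L1 fun x => deriv (fun τ => w1 τ x 0) t).re)
    (fun t => (FC 0 L1 fun x => z1 t x 0).re)
    (fun t y => hre (M.dA t y))
    (fun t => Complex.continuous_re.comp (M.cA.comp (by fun_prop : Continuous fun y : ℝ => (t, y))))
    (fun t y => by
      have := congrArg Complex.re (hq1 t y)
      simp only [Complex.ofReal_zero, mul_zero, zero_mul, add_zero, neg_zero, hBc t y] at this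
      simpa using this)
    (fun t => by
      have h1 := M.dS t 0
      have h2 := M.e5 t 0
      simp only [Complex.ofReal_zero, mul_zero, zero_mul, add_zero] at h2
      rw [h2] at h1
      exact hre h1)
    (fun t => hre (M.dB t 0))
    (fun t => by
      have hcA : Continuous fun y => (FC 0 L1 fun x => w0 t x y).re :=
        Complex.continuous_re.comp (M.cA.comp (by fun_prop : Continuous fun y : ℝ => (t, y)))
      have e : ∀ y, (1 / mm y) * (FC 0 L1 fun x => deriv (fun τ => w1 τ x 0) t).re
          - dm y * ff y * (FC 0 L1 fun x => w0 t x y).re = -(Qy t y).re := fun y => by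
        have := congrArg Complex.re (hq2 t y)
        simp only [Complex.ofReal_zero, mul_zero, zero_mul, add_zero, hBtc t y] at this
        simpa [Complex.mul_re] using this
      have hQr : ∀ y ∈ Set.uIcc (0 : ℝ) (2 * π), HasDerivAt (fun y => (Q t y).re)
          (Qy t y).re y := fun y _ => hre (hQ t y)
      have cQ : Continuous fun y => (Qy t y).re := by
        have : (fun y => (Qy t y).re) = fun y => -((1 / mm y)
          * (FC 0 L1 fun x => deriv (fun τ => w1 τ x 0) t).re
          - dm y * ff y * (FC 0 L1 fun x => w0 t x y).re) := by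
          funext y; rw [e y]; ring
        rw [this]
        exact ((continuous_inv_mm.mul continuous_const).sub
          ((continuous_dm.mul continuous_ff).mul hcA)).neg
      have hint := integral_eq_sub_of_hasDerivAt hQr (cQ.intervalIntegrable _ _)
      rw [hQp t, sub_self] at hint
      have hint2 : ∫ y in (0 : ℝ)..2 * π, ((1 / mm y)
          * (FC 0 L1 fun x => deriv (fun τ => w1 τ x 0) t).re
          - dm y * ff y * (FC 0 L1 fun x => w0 t x y).re) = 0 := by
        simp_rw [e]
        rw [intervalIntegral.integral_neg, hint, neg_zero]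
      have i1 : IntervalIntegrable (fun y => (1 / mm y)
          * (FC 0 L1 fun x => deriv (fun τ => w1 τ x 0) t).re) volume 0 (2 * π) :=
        (continuous_inv_mm.mul continuous_const).intervalIntegrable _ _
      have i2 : IntervalIntegrable (fun y => dm y * ff y * (FC 0 L1 fun x => w0 t x y).re)
          volume 0 (2 * π) :=
        ((continuous_dm.mul continuous_ff).mul hcA).intervalIntegrable _ _
      rw [intervalIntegral.integral_sub i1 i2, intervalIntegral.integral_mul_const] at hint2
      exact sub_eq_zero.1 hint2)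
    (fun t y => by
      have h1 := hre (M.dC t y)
      have h2 := congrArg Complex.re (M.e4 t y)
      simp only [Complex.ofReal_zero, mul_zero, zero_mul, add_zero, hSc t y] at h2
      simp at h2
      refine h1.congr_deriv ?_
      linarith)
    (fun y => by simp [h00, FC]) (fun y => by simp [hT0, FC])
    (by simp [h01, FC]) (by simp [hT1, FC])
  refine ⟨fun x y => ?_, (1 / L1) * ∫ r in (0 : ℝ)..L1, w1 0 r 0, fun x y => ?_, fun hlt => ?_⟩
  · have := key.1 y
    rw [FC0, Complex.ofReal_re] at this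
    rw [hw0 x y, this, mul_zero]
  · have := hBc 0 y
    rw [FC0, FC0] at this
    rw [hw1 x y, Complex.ofReal_inj.1 this]
  · have := key.2 hlt
    rw [FC0, Complex.ofReal_re] at this
    rw [this, mul_zero]

/-- The vector field `∂_y`. -/
noncomputable def eY : VField := fun i => if i = 0 then fun _ _ => 0 else fun _ _ => 1

lemma eY_ne : eY ≠ 0 := by
  intro h
  have := congrFun (congrFun (congrFun h 1) 0) 0
  simp [eY] at this

lemma inHs_of {u : ℝ → ℝ → ℝ} (s c0 c1 c2 c3 c4 : ℝ) (h : u = fun _ y =>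
      c0 + c1 * cos y + c2 * sin y + c3 * cos (2 * y) + c4 * sin (2 * y)) :
    InHs L1 (2 * π) s u := by
  rw [h]; exact inHs_trig L1 L1_pos s c0 c1 c2 c3 c4

lemma isJacobi_sol (s c : ℝ) : IsJacobi (exG L1) s (fun _ => exV) (wS c) (zS c) := by
  refine isJacobi_of_linSys (linSys_sol L1 c) ?_ ?_
  · intro t i
    fin_cases i
    · refine inHs_of s 0 0 (c * sin (nu * t)) 0 (-(3 / 2) * c * sin (nu * t)) ?_
      simp only [Fin.zero_eta, wS_0]
      funext _ y
      rw [sin_two_mul]; ring
    · refine inHs_of s (c * nu * cos (nu * t)) 0 0 0 0 ?_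
      simp only [Fin.mk_one, wS_1]
      funext _ y
      ring
  · intro t i
    fin_cases i
    · refine inHs_of s 0 0 (2 * c * ((1 - cos (nu * t)) / nu)) 0
        (-(1 / 2) * c * ((1 - cos (nu * t)) / nu)) ?_
      simp only [Fin.zero_eta, zS_0]
      funext _ y
      rw [sin_two_mul]; ring
    · refine inHs_of s (c * sin (nu * t)) 0 0 0 0 ?_
      simp only [Fin.mk_one, zS_1]
      funext _ y
      ring

lemma wS_zero (c : ℝ) : wS c 0 = (c * nu) • eY := by
  funext i x y
  fin_cases i
  · simp [wS, eY]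
  · simp [wS, eY]

lemma zS_zero (c : ℝ) : zS c 0 = 0 := by
  funext i x y
  fin_cases i
  · simp [zS]
  · simp [zS]

lemma zS_T1 (c : ℝ) : zS c T1 = 0 := by
  have h : nu * T1 = 2 * π := by
    rw [T1]; field_simp [nu_pos.ne']
  funext i x y
  fin_cases i
  · simp [zS, h]
  · simp [zS, h]

lemma kernel_sub {s T : ℝ} (hT : 0 < T) (hνT : nu * T ≤ 2 * π) {w₀ : VField}
    (h : w₀ ∈ expKernel (exG L1) s (fun _ => exV) T) :
    ∃ c : ℝ, w₀ = c • eY ∧ (nu * T < 2 * π → c = 0) := by
  obtain ⟨w, z, hJ, hw, hz, hzT⟩ := h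
  obtain ⟨h0, c, hc, hc0⟩ := uniq hT hνT (linSys_of_isJacobi hJ)
    (fun x y => by rw [hz]; rfl) (fun x y => by rw [hz]; rfl)
    (fun x y => by rw [hzT]; rfl) (fun x y => by rw [hzT]; rfl)
  refine ⟨c, ?_, hc0⟩
  rw [← hw]
  funext i x y
  fin_cases i
  · simpa [eY] using h0 x y
  · simpa [eY] using hc x y

lemma nu_T1 : nu * T1 = 2 * π := by
  rw [T1]; field_simp [nu_pos.ne']

lemma kernel_T1 (s : ℝ) :
    expKernel (exG L1) s (fun _ => exV) T1 = (Submodule.span ℝ {eY} : Set VField) := by
  ext w₀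
  constructor
  · intro h
    obtain ⟨c, hc, _⟩ := kernel_sub T1_pos nu_T1.le h
    rw [hc]
    exact Submodule.smul_mem _ _ (Submodule.subset_span rfl)
  · intro h
    obtain ⟨c, hc⟩ := Submodule.mem_span_singleton.1 h
    refine ⟨wS (c / nu), zS (c / nu), isJacobi_sol s _, ?_, zS_zero _, zS_T1 _⟩
    rw [wS_zero, ← hc, div_mul_cancel₀ _ nu_pos.ne']

lemma order_T1 (s : ℝ) : conjugateOrder (exG L1) s (fun _ => exV) T1 = 1 := by
  unfold conjugateOrder
  rw [kernel_T1, Submodule.span_eq]
  exact finrank_span_singleton eY_ne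

lemma isLeast_T1 (s : ℝ) : IsLeast {t | IsConjugate (exG L1) s (fun _ => exV) t} T1 := by
  constructor
  · refine ⟨T1_pos, eY, ?_, eY_ne⟩
    rw [kernel_T1]
    exact Submodule.subset_span rfl
  · rintro t ⟨ht, w₀, hw, hne⟩
    by_contra hlt
    rw [not_le] at hlt
    have h1 : nu * t < 2 * π := by
      rw [← nu_T1]; exact mul_lt_mul_of_pos_left hlt nu_pos
    obtain ⟨c, hc, hc0⟩ := kernel_sub ht h1.le hw
    rw [hc0 h1, zero_smul] at hc
    exact hne hc

/-- The flow of the shear. -/
noncomputable def exη (t : ℝ) (q : ℝ × ℝ) : ℝ × ℝ := (q.1 + t * ff q.2, q.2)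

/-- The pressure of the steady flow. -/
noncomputable def exP (c : ℝ) : ℝ :=
  18 * c - 3 * c ^ 2 - 11 / 6 * c ^ 3 + 1 / 4 * c ^ 4 + 1 / 10 * c ^ 5

lemma hasDerivAt_exP (y : ℝ) :
    HasDerivAt (fun y => exP (cos y)) (1 / 2 * dm y * (ff y * ff y)) y := by
  have hc := hasDerivAt_cos y
  have h := ((((hc.const_mul 18).sub ((hc.pow 2).const_mul 3)).sub
    ((hc.pow 3).const_mul (11 / 6))).add ((hc.pow 4).const_mul (1 / 4))).add
    ((hc.pow 5).const_mul (1 / 10))
  refine HasDerivAt.congr_deriv (f := fun y => exP (cos y)) h ?_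
  simp [dm, ff]
  ring

theorem isGeodesic_ex (s : ℝ) : IsGeodesic (exG L1) s (fun _ => exV) exη where
  tangent := fun _ =>
    { c1 := by
        intro i; fin_cases i
        · simp only [Fin.zero_eta, exV_0]
          exact (contDiff_ff.of_le (by exact_mod_cast le_top)).comp contDiff_snd
        · simp only [Fin.mk_one, exV_1]
          exact contDiff_const
      periodic := by
        intro i; fin_cases i
        · intro x y; simp [ff]
        · intro x y; simp
      hs := by
        intro i; fin_cases i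
        · refine inHs_of s (11 / 2) (-1) 0 (-(1 / 2)) 0 ?_
          simp only [Fin.zero_eta, exV_0]
          funext _ y
          rw [cos_two_mul]; unfold ff; ring
        · refine inHs_of s 0 0 0 0 0 ?_
          simp only [Fin.mk_one, exV_1]
          funext _ y
          ring
      div := by rw [divFree_exG]; intro x y; simp }
  c1 := by
    intro i; fin_cases i
    · simp only [Fin.zero_eta, exV_0]
      unfold ff
      fun_prop
    · simp only [Fin.mk_one, exV_1]
      exact contDiff_const
  euler := by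
    intro t
    refine ⟨fun _ y => exP (cos y), ?_, ?_, ?_⟩
    · have : ContDiff ℝ 1 fun q : ℝ × ℝ => exP (cos q.2) := by unfold exP; fun_prop
      exact this
    · intro x y; simp
    · intro k x y
      fin_cases k
      · simp only [Fin.zero_eta]
        rw [nabla_exG_zero, pd_zero]
        simp [Fin.sum_univ_two]
      · simp only [Fin.mk_one]
        rw [nabla_exG_one, pd_one, (hasDerivAt_exP y).deriv]
        simp [Fin.sum_univ_two]
  init := by intro q; simp [exη]
  flow := by
    intro t q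
    have h1 : HasDerivAt (fun τ : ℝ => q.1 + τ * ff q.2) (ff q.2) t := by
      simpa using ((hasDerivAt_id t).mul_const (ff q.2)).const_add q.1
    have h2 : HasDerivAt (fun _ : ℝ => q.2) 0 t := hasDerivAt_const _ _
    have := h1.prodMk h2
    simpa [exη] using this

/-- There is a compact surface (a torus) and an `L²` geodesic of its group of volume preserving
`H^s` diffeomorphisms whose first conjugate point has order exactly one. -/
theorem main : ∃ (a b : ℝ) (_ : 0 < a) (_ : 0 < b) (G : TorusMetric a b) (v : ℝ → VField)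
    (η : ℝ → ℝ × ℝ → ℝ × ℝ) (T : ℝ), ∀ s : ℝ, 2 < s →
      IsGeodesic G s v η ∧ IsLeast {t | IsConjugate G s v t} T ∧ conjugateOrder G s v T = 1 :=
  ⟨L1, 2 * π, L1_pos, by positivity, exG L1, fun _ => exV, exη, T1, fun s _ =>
    ⟨isGeodesic_ex s, isLeast_T1 s, order_T1 s⟩⟩

end Pool.Agent.Helper115.FC
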