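import Pool.Agent.Helper115.FC.Lin

set_option autoImplicit false

open Real MeasureTheory intervalIntegral
open scoped ContDiff

namespace Pool.Agent.Helper115.FC

lemma int_s2 : ∫ y in (0 : ℝ)..2 * π, sin y ^ 2 = π := by
  rw [integral_sin_sq]; simp

lemma int_s2c : ∫ y in (0 : ℝ)..2 * π, sin y ^ 2 * cos y = 0 := by
  have h : ∀ y ∈ Set.uIcc (0 : ℝ) (2 * π),
      HasDerivAt (fun y => sin y ^ 3 / 3) (sin y ^ 2 * cos y) y := fun y _ => by
    have := ((hasDerivAt_sin y).pow 3).div_const 3
    refine this.congr_deriv ?_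
    simp; ring
  rw [integral_eq_sub_of_hasDerivAt h (by apply Continuous.intervalIntegrable; fun_prop)]
  simp

lemma int_s2c2 : ∫ y in (0 : ℝ)..2 * π, sin y ^ 2 * cos y ^ 2 = π / 4 := by
  rw [integral_sin_sq_mul_cos_sq]
  have : sin (4 * (2 * π)) = 0 := by
    have := sin_nat_mul_pi 8
    rw [show (4 * (2 * π)) = ((8 : ℕ) : ℝ) * π by push_cast; ring]; exact this
  simp [this]; ring

lemma int_s2c3 : ∫ y in (0 : ℝ)..2 * π, sin y ^ 2 * cos y ^ 3 = 0 := by
  have h : ∀ y ∈ Set.uIcc (0 : ℝ) (2 * π),
      HasDerivAt (fun y => sin y ^ 3 / 3 - sin y ^ 5 / 5) (sin y ^ 2 * cos y ^ 3) y :=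
      fun y _ => by
    have := (((hasDerivAt_sin y).pow 3).div_const 3).sub (((hasDerivAt_sin y).pow 5).div_const 5)
    refine this.congr_deriv ?_
    have h2 : cos y ^ 2 = 1 - sin y ^ 2 := by have := sin_sq_add_cos_sq y; linarith
    simp
    rw [show cos y ^ 3 = cos y ^ 2 * cos y by ring, h2]; ring
  rw [integral_eq_sub_of_hasDerivAt h (by apply Continuous.intervalIntegrable; fun_prop)]
  simp

lemma int_poly (a b c d : ℝ) : ∫ y in (0 : ℝ)..2 * π,
    sin y ^ 2 * (a + b * cos y + c * cos y ^ 2 + d * cos y ^ 3) = a * π + c * (π / 4) := by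
  have : ∀ y, sin y ^ 2 * (a + b * cos y + c * cos y ^ 2 + d * cos y ^ 3)
      = a * sin y ^ 2 + b * (sin y ^ 2 * cos y) + c * (sin y ^ 2 * cos y ^ 2)
        + d * (sin y ^ 2 * cos y ^ 3) := fun y => by ring
  simp_rw [this]
  rw [intervalIntegral.integral_add, intervalIntegral.integral_add,
    intervalIntegral.integral_add, intervalIntegral.integral_const_mul,
    intervalIntegral.integral_const_mul, intervalIntegral.integral_const_mul,
    intervalIntegral.integral_const_mul, int_s2, int_s2c, int_s2c2, int_s2c3]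
  · ring
  all_goals exact Continuous.intervalIntegrable (by fun_prop) _ _

noncomputable def A0 : ℝ := ∫ y in (0 : ℝ)..2 * π, 1 / mm y
noncomputable def K0 : ℝ := ∫ y in (0 : ℝ)..2 * π, dm y * ff y * p1 y / mm y
noncomputable def B0 : ℝ := ∫ y in (0 : ℝ)..2 * π, (dm y * ff y) ^ 2 / mm y

lemma K0_eq : K0 = 13 * π / 2 := by
  have : ∀ y, dm y * ff y * p1 y / mm y
      = sin y ^ 2 * (6 + (-19) * cos y + 2 * cos y ^ 2 + 3 * cos y ^ 3) := fun y => by
    have h := (mm_pos y).ne'
    rw [div_eq_iff h]
    unfold dm ff p1 mm; ring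
  unfold K0
  simp_rw [this]
  rw [int_poly]; ring

lemma B0_eq : B0 = 47 * π / 4 := by
  have : ∀ y, (dm y * ff y) ^ 2 / mm y
      = sin y ^ 2 * (12 + (-8) * cos y + (-1) * cos y ^ 2 + 1 * cos y ^ 3) := fun y => by
    have h := (mm_pos y).ne'
    rw [div_eq_iff h]
    unfold dm ff mm; ring
  unfold B0
  simp_rw [this]
  rw [int_poly]; ring

lemma continuous_inv_mm : Continuous fun y => 1 / mm y :=
  continuous_const.div continuous_mm fun y => (mm_pos y).ne'

lemma A0_pos : 0 < A0 := by
  unfold A0
  exact intervalIntegral_pos_of_pos (continuous_inv_mm.intervalIntegrable _ _)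
    (fun y => div_pos one_pos (mm_pos y)) (by positivity)

/-- The frequency of the Jacobi fields. -/
noncomputable def nu : ℝ := √ (K0 / A0)

lemma K0_pos : 0 < K0 := by rw [K0_eq]; positivity

lemma nu_pos : 0 < nu := Real.sqrt_pos.2 (div_pos K0_pos A0_pos)
lemma nu_sq : nu ^ 2 = K0 / A0 := Real.sq_sqrt (div_pos K0_pos A0_pos).le

noncomputable def RR (y : ℝ) : ℝ := dm y * ff y * p1 y / mm y - nu ^ 2 * (1 / mm y)

lemma continuous_RR : Continuous RR := by
  unfold RR
  exact (((continuous_dm.mul continuous_ff).mul continuous_p1).div continuous_mm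
    fun y => (mm_pos y).ne').sub (continuous_const.mul continuous_inv_mm)

lemma int_RR : ∫ y in (0 : ℝ)..2 * π, RR y = 0 := by
  have h1 : IntervalIntegrable (fun y => dm y * ff y * p1 y / mm y) volume 0 (2 * π) :=
    Continuous.intervalIntegrable (((continuous_dm.mul continuous_ff).mul continuous_p1).div
      continuous_mm fun y => (mm_pos y).ne') _ _
  have h2 : IntervalIntegrable (fun y => nu ^ 2 * (1 / mm y)) volume 0 (2 * π) :=
    Continuous.intervalIntegrable (continuous_const.mul continuous_inv_mm) _ _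
  unfold RR
  rw [intervalIntegral.integral_sub h1 h2, intervalIntegral.integral_const_mul]
  change K0 - nu ^ 2 * A0 = 0
  rw [nu_sq, div_mul_cancel₀ _ A0_pos.ne', sub_self]

lemma periodic_RR : Function.Periodic RR (2 * π) := by
  intro y
  simp [RR, dm, ff, p1, mm]

noncomputable def QQ (y : ℝ) : ℝ := ∫ r in (0 : ℝ)..y, RR r

lemma hasDerivAt_QQ (y : ℝ) : HasDerivAt QQ (RR y) y :=
  intervalIntegral.integral_hasDerivAt_right (continuous_RR.intervalIntegrable _ _)
    (continuous_RR.stronglyMeasurableAtFilter _ _) continuous_RR.continuousAt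

lemma periodic_QQ (y : ℝ) : QQ (y + 2 * π) = QQ y := by
  unfold QQ
  have h := periodic_RR.intervalIntegral_add_eq y 0
  rw [zero_add, int_RR] at h
  have := intervalIntegral.integral_add_adjacent_intervals
    (continuous_RR.intervalIntegrable (μ := volume) 0 y)
    (continuous_RR.intervalIntegrable (μ := volume) y (y + 2 * π))
  rw [h, add_zero] at this
  exact this.symm

lemma contDiff_QQ : ContDiff ℝ 1 QQ := by
  rw [contDiff_one_iff_deriv]
  refine ⟨fun y => (hasDerivAt_QQ y).differentiableAt, ?_⟩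
  have : deriv QQ = RR := funext fun y => (hasDerivAt_QQ y).deriv
  rw [this]; exact continuous_RR

/-- The explicit Jacobi field: velocity part. -/
noncomputable def wS (c t : ℝ) : VField := fun i =>
  if i = 0 then fun _ y => c * (sin y * (1 - 3 * cos y)) * sin (nu * t)
  else fun _ _ => c * nu * cos (nu * t)

/-- The explicit Jacobi field: position part. -/
noncomputable def zS (c t : ℝ) : VField := fun i =>
  if i = 0 then fun _ y => c * ((2 - cos y) * sin y) * ((1 - cos (nu * t)) / nu)
  else fun _ _ => c * sin (nu * t)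

lemma wS_0 (c t : ℝ) :
    wS c t 0 = fun _ y => c * (sin y * (1 - 3 * cos y)) * sin (nu * t) := by simp [wS]
lemma wS_1 (c t : ℝ) : wS c t 1 = fun _ _ => c * nu * cos (nu * t) := by simp [wS]
lemma zS_0 (c t : ℝ) :
    zS c t 0 = fun _ y => c * ((2 - cos y) * sin y) * ((1 - cos (nu * t)) / nu) := by simp [zS]
lemma zS_1 (c t : ℝ) : zS c t 1 = fun _ _ => c * sin (nu * t) := by simp [zS]

lemma hasDerivAt_sin_nu (t : ℝ) : HasDerivAt (fun t => sin (nu * t)) (nu * cos (nu * t)) t := by
  have := ((hasDerivAt_id t).const_mul nu).sin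
  refine this.congr_deriv ?_
  simp; ring

lemma hasDerivAt_cos_nu (t : ℝ) : HasDerivAt (fun t => cos (nu * t)) (-(nu * sin (nu * t))) t := by
  have := ((hasDerivAt_id t).const_mul nu).cos
  refine this.congr_deriv ?_
  simp; ring

theorem linSys_sol (L c : ℝ) : LinSys L (fun t => wS c t 0) (fun t => wS c t 1)
    (fun t => zS c t 0) (fun t => zS c t 1) where
  cw0 := by simp only [wS_0]; fun_prop
  cw1 := by simp only [wS_1]; fun_prop
  cz0 := by simp only [zS_0]; fun_prop
  cz1 := by simp only [zS_1]; fun_prop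
  pw0 := by intro t x y; simp [wS_0]
  pw1 := by intro t x y; simp [wS_1]
  pz0 := by intro t x y; simp [zS_0]
  pz1 := by intro t x y; simp [zS_1]
  dw := by intro t x y; simp [wS_0, wS_1]
  dz := by intro t x y; simp [zS_0, zS_1]
  flow0 := by
    intro t x y
    have h : HasDerivAt (fun τ => zS c τ 0 x y)
        (c * ((2 - cos y) * sin y) * ((0 - -(nu * sin (nu * t))) / nu)) t := by
      simp only [zS_0]
      exact (((hasDerivAt_const t (1 : ℝ)).sub (hasDerivAt_cos_nu t)).div_const nu).const_mul _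
    rw [h.deriv]
    simp only [zS_0, zS_1, wS_0, deriv_const, df]
    have := nu_pos.ne'
    field_simp
    ring
  flow1 := by
    intro t x y
    have h : HasDerivAt (fun τ => zS c τ 1 x y) (c * (nu * cos (nu * t))) t := by
      simp only [zS_1]; exact (hasDerivAt_sin_nu t).const_mul c
    rw [h.deriv]
    simp only [zS_1, wS_1, deriv_const]
    ring
  eul := by
    intro t
    refine ⟨fun _ y => -(c * sin (nu * t) * QQ y), ?_, ?_, fun x y => ⟨?_, ?_⟩⟩
    · exact (contDiff_const.mul (contDiff_QQ.comp contDiff_snd)).neg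
    · intro x y
      simp [periodic_QQ]
    · have h : HasDerivAt (fun τ => wS c τ 0 x y)
          (c * (sin y * (1 - 3 * cos y)) * (nu * cos (nu * t))) t := by
        simp only [wS_0]; exact (hasDerivAt_sin_nu t).const_mul _
      rw [h.deriv]
      simp only [wS_0, wS_1, deriv_const, mm, p1]
      ring
    · have h : HasDerivAt (fun τ => wS c τ 1 x y) (c * nu * -(nu * sin (nu * t))) t := by
        simp only [wS_1]; exact (hasDerivAt_cos_nu t).const_mul _
      have h2 : deriv (fun r => -(c * sin (nu * t) * QQ r)) y = -(c * sin (nu * t) * RR y) :=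
        ((hasDerivAt_QQ y).const_mul _).neg.deriv
      rw [h.deriv, h2]
      have hm := (mm_pos y).ne'
      simp only [wS_0, wS_1, deriv_const, RR]
      have e : dm y * ff y * p1 y / mm y
          = -(dm y * ff y * (sin y * (1 - 3 * cos y))) := by
        rw [div_eq_iff hm]; unfold p1 mm; ring
      rw [e]; field_simp; ring

end Pool.Agent.Helper115.FC
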